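import Pool.Agent.Lib.MP_7836d5_lc.CPT.EvalTr

set_option autoImplicit false
set_option linter.unusedSectionVars false

/-! Accepting runs are transported. -/

namespace Pool.Agent.Lib.MP_7836d5_lc.CPT

open Finset

variable {n l : ℕ} {E C : Type} [Fintype E] [DecidableEq E] [AddCommGroup C] [Fintype C]
  {Y : Sys n l E C} {σ : Type} {R R' : σ → ℕ → ℕ → ℕ → ℕ → Prop} {x y s : ℕ} {a : C}
  {π : Equiv.Perm (Fin n)}

theorem Pure.mem (h : Pure n x) (hy : y ∈ el n x) : Pure n y :=
  ⟨h.2 y (.single hy), fun w hw => h.2 w (Relation.TransGen.tail hw hy)⟩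

theorem pure_ord (k : ℕ) : Pure n (ord n k) := by
  induction k using Nat.strong_induction_on with
  | _ k ih =>
    refine ⟨le_ord k, fun y hy => ?_⟩
    obtain ⟨b, h1, h2⟩ := Relation.TransGen.tail'_iff.1 hy
    rw [el_ord] at h2
    obtain ⟨j, hj, rfl⟩ := mem_image.1 h2
    rcases Relation.reflTransGen_iff_eq_or_transGen.1 h1 with h3 | h3
    · rw [← h3]
      exact le_ord j
    · exact (ih j (mem_range.1 hj)).2 y h3

theorem act_pure (h : Pure n x) : act π x = x := by
  induction x using Nat.strong_induction_on with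
  | _ x ih =>
    rw [act_set h.1, image_congr (g := id) fun y hy => ih y (lt_of_mem_el hy) (h.mem hy), image_id,
      enc_el h.1]

theorem run_fix (h : Iso π (fun _ => True) R R) (t : Tm σ) (hx : Pure n x) (i : ℕ) :
    act π (run n R t x i) = run n R t x i := by
  induction i with
  | zero => exact act_pure hx
  | succ i ih => exact eval_fix h t fun _ => ih

theorem lt_of_mem_tc (h : y ∈ tc n x) : y < x := by
  induction h with
  | single h => exact lt_of_mem_el h
  | tail _ h ih => exact ih.trans (lt_of_mem_el h)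

theorem tc_finite (n x : ℕ) : (tc n x).Finite :=
  (Set.finite_lt_nat x).subset fun _ h => lt_of_mem_tc h

theorem image_act_tc (h : act π x = x) :
    (tc_finite n x).toFinset.image (act π) = (tc_finite n x).toFinset := by
  refine eq_of_subset_of_card_le (fun w hw => ?_) (card_image_of_injective _ (act_injective π)).ge
  obtain ⟨y, hy, rfl⟩ := mem_image.1 hw
  rw [Set.Finite.mem_toFinset] at hy ⊢
  have h1 := transGen_act (π := π) hy
  rwa [h] at h1

namespace Sys

theorem supp_eq_empty : Y.supp x = ∅ ↔ ∀ e, act (Y.φ (Y.δ (Pi.single e 1))) x = x := by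
  simp [supp, filter_eq_empty_iff]

theorem hs_of_tc (h0 : Y.supp x = ∅) (h : ∀ y ∈ tc n x, (Y.supp y).card ≤ s) : Y.Hs s x := by
  intro y hy
  rcases Relation.reflTransGen_iff_eq_or_transGen.1 hy with h1 | h1
  · rw [← h1, h0]
    exact Nat.zero_le _
  · exact h y h1

theorem tr_pure (hl : 0 < l) (ha : Y.A ∅ a) (h : Pure n x) : Y.tr a x = x := by
  induction x using Nat.strong_induction_on generalizing a with
  | _ x ih =>
    have h0 : ∀ y, Pure n y → Y.supp y = ∅ := fun y hy => supp_eq_empty.2 fun _ => act_pure hy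
    have h1 : Y.Hs 0 x := hs_of_tc (h0 x h) fun y hy => by
      rw [h0 y ⟨h.2 y hy, fun w hw => h.2 w (Relation.TransGen.trans hw hy)⟩]
      exact le_rfl
    refine ext_el (not_lt.1 fun h2 => not_lt.2 h.1 (tr_lt.1 h2)) h.1 (Finset.ext fun w => ?_)
    rw [mem_tr (S := ∅) (h0 x h).subset h1 (by simpa using hl) ha]
    constructor
    · rintro ⟨y, hy, a', h2, -, rfl⟩
      rwa [ih y (lt_of_mem_el hy) (Y.A_mono (empty_subset _) h2) (h.mem hy)]
    · intro hw
      refine ⟨w, hw, a, ?_, ?_, (ih w (lt_of_mem_el hw) ha (h.mem hw)).symm⟩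
      · rwa [h0 w (h.mem hw), union_empty]
      · rw [sub_self]
        exact zero_mem _

theorem encard_tc_tr (hl : 4 * s < l) (ha : Y.A ∅ a) (h0 : Y.supp x = ∅) (hx : Y.Hs s x) :
    (tc n (Y.tr a x)).encard ≤ (tc n x).encard := by
  have hs : ∀ y ∈ tc n x, Y.Hs s y := fun y hy w hw => hx w (hw.trans hy.to_reflTransGen)
  have hB : Y.supp (enc n (tc_finite n x).toFinset) = ∅ := supp_eq_empty.2 fun e => by
    rw [act_enc, image_act_tc (supp_eq_empty.1 h0 e)]
  have hH : Y.Hs s (enc n (tc_finite n x).toFinset) := Hs.of (by rw [hB]; exact Nat.zero_le _)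
    fun y hy => hs y (by rwa [el_enc, Set.Finite.mem_toFinset] at hy)
  have key : ∀ w ∈ tc n (Y.tr a x), ∃ y ∈ tc n x, ∃ a', Y.A (∅ ∪ Y.supp y) a' ∧
      a' - a ∈ Y.K ∅ ∧ w = Y.tr a' y := by
    intro w hw
    induction hw using Relation.TransGen.head_induction_on with
    | single h =>
      obtain ⟨y, hy, h1⟩ := (mem_tr (S := ∅) h0.subset hx (by rw [card_empty]; omega) ha).1 h
      exact ⟨y, .single hy, h1⟩
    | head h _ ih =>
      obtain ⟨y, hy, a', h1, h2, rfl⟩ := ih
      have h3 := (hs y hy).card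
      obtain ⟨y', hy', a'', h4, h5, rfl⟩ := (mem_tr (S := Y.supp y) subset_rfl (hs y hy) (by omega)
        (Y.A_mono subset_union_right h1)).1 h
      refine ⟨y', .head hy' hy, a'', Y.A_mono (union_subset_union_left (empty_subset _)) h4, ?_,
        rfl⟩
      rw [← sub_add_sub_cancel a'' a' a]
      exact add_mem (Y.K_mono (empty_subset _) h5) h2
  have h1 : tc n (Y.tr a x) ⊆ ↑(el n (Y.tr a (enc n (tc_finite n x).toFinset))) := fun w hw => by
    obtain ⟨y, hy, h2⟩ := key w hw
    exact (mem_tr (S := ∅) hB.subset hH (by rw [card_empty]; omega) ha).2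
      ⟨y, by rwa [el_enc, Set.Finite.mem_toFinset], h2⟩
  refine (Set.encard_le_encard h1).trans ?_
  rw [Set.encard_coe_eq_coe_finsetCard, card_tr hl hH (by rwa [hB]), el_enc,
    ← Set.encard_coe_eq_coe_finsetCard, Set.Finite.coe_toFinset]

theorem accepts_tr (h1 : ∀ z, Iso (Y.φ (Y.δ z)) (fun _ => True) R R)
    (h2 : ∀ S a, Y.A S a → Iso (Y.φ a) (fun x => Y.supp x ⊆ S) R R') {step halt out : Tm σ}
    {T M : ℕ} (hp : Pure n x) (h0 : ∀ x < n, (Y.supp x).card ≤ s)
    (hl : 4 * ((rk step + rk halt + rk out) * s) < l)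
    (hM : ∀ j, (tc n (run n R step x j)).encard ≤ M →
      ∀ y ∈ tc n (run n R step x j), (Y.supp y).card ≤ s)
    (hA : Accepts step halt out n R x T M) : Accepts step halt out n R' x T M := by
  obtain ⟨i, hi, a1, a2, a3, a4⟩ := hA
  have hl0 : 0 < l := by omega
  obtain ⟨a, ha⟩ := Y.A_ne (S := ∅) (by rwa [card_empty])
  have b0 : ∀ j, Y.supp (run n R step x j) = ∅ := fun j =>
    supp_eq_empty.2 fun e => run_fix (h1 _) step hp j
  have b1 : ∀ j ≤ i, Y.Hs s (run n R step x j) := fun j hj => hs_of_tc (b0 j) (hM j (a4 j hj))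
  have hr : ∀ t : Tm σ, rk t ≤ rk step + rk halt + rk out → 4 * (rk t * s) < l := fun t ht =>
    lt_of_le_of_lt (Nat.mul_le_mul_left 4 (Nat.mul_le_mul_right s ht)) hl
  have b2 : ∀ t : Tm σ, rk t ≤ rk step + rk halt + rk out → ∀ j ≤ i,
      Y.Hs (rk t * s) (eval n R t fun _ => run n R step x j) ∧
      (eval n R' t fun _ => Y.tr a (run n R step x j)) =
        Y.tr a (eval n R t fun _ => run n R step x j) := fun t ht j hj =>
    eval_tr h1 h2 t (S := ∅) (v := fun _ => run n R step x j) h0 (by simp) (hr t ht)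
      (fun _ => ⟨(b0 j).subset, b1 j hj⟩) ha
  have b3 : ∀ j ≤ i, run n R' step x j = Y.tr a (run n R step x j) := by
    intro j
    induction j with
    | zero => exact fun _ => (tr_pure hl0 ha hp).symm
    | succ j ih =>
      intro hj
      rw [run, run, ih (by omega)]
      exact (b2 step (by omega) j (by omega)).2
  have b4 : ∀ t : Tm σ, rk t ≤ rk step + rk halt + rk out → ∀ j ≤ i,
      ((eval n R' t fun _ => run n R' step x j) = ord n 1 ↔
        (eval n R t fun _ => run n R step x j) = ord n 1) := fun t ht j hj => by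
    obtain ⟨c1, c2⟩ := b2 t ht j hj
    rw [b3 j hj, c2]
    refine ⟨fun h => tr_inj (hr t ht) c1 (hs_ord 1) (Y.A_mono ?_ ha) ?_, fun h => ?_⟩
    · rw [supp_ord, union_empty]
      exact supp_eval h1 t fun _ => (b0 j).subset
    · rw [h, tr_ord ha]
    · rw [h, tr_ord ha]
  have hs : 4 * s < l := by
    have := one_le_rk step
    have := hr step (by omega)
    nlinarith
  refine ⟨i, hi, fun j hj h => a1 j hj ((b4 halt (by omega) j hj.le).1 h),
    (b4 halt (by omega) i le_rfl).2 a2, (b4 out (by omega) i le_rfl).2 a3, fun j hj => ?_⟩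
  rw [b3 j hj]
  exact (encard_tc_tr hs ha (b0 j) (b1 j hj)).trans (a4 j hj)

end Sys

end Pool.Agent.Lib.MP_7836d5_lc.CPT
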