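import Pool.Agent.Lib.MP_7836d5_lc.CPT.Basic

set_option autoImplicit false

/-! Evaluation commutes with automorphisms. -/

namespace Pool.Agent.Lib.MP_7836d5_lc.CPT

open Finset

variable {n : ℕ} {π : Equiv.Perm (Fin n)} {σ : Type} {R : σ → ℕ → ℕ → ℕ → ℕ → Prop}

theorem image_act_range : (range n).image (act π) = range n := by
  refine eq_of_subset_of_card_le (fun x hx => ?_) (card_image_of_injective _ (act_injective π)).ge
  obtain ⟨y, hy, rfl⟩ := mem_image.1 hx
  exact mem_range.2 (act_lt.2 (mem_range.1 hy))

theorem eval_act (h : Iso π (fun _ => True) R R) (t : Tm σ) (v : ℕ → ℕ) :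
    eval n R t (fun i => act π (v i)) = act π (eval n R t v) := by
  have inj := act_injective π
  induction t generalizing v with
  | var i => rfl
  | empty => simp [eval, act_enc]
  | atoms => simp only [eval, act_enc, image_act_range]
  | pair s t ihs iht => simp [eval, act_enc, ihs, iht]
  | union t ih =>
    simp only [eval, act_enc, ih, el_act, image_biUnion, biUnion_image]
  | unique t ih =>
    simp only [eval, ih]
    by_cases h1 : (el n (eval n R t v)).card = 1
    · obtain ⟨y, hy⟩ := card_eq_one.1 h1
      rw [uniq_eq hy, uniq_eq (by rw [el_act, hy, image_singleton])]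
    · rw [uniq_ne h1, uniq_ne (by rwa [el_act, card_image_of_injective _ inj]), act_enc, image_empty]
  | card t ih => simp only [eval, ih, el_act, card_image_of_injective _ inj, act_ord]
  | comp i s r g ihs ihr ihg =>
    have e : ∀ y, Function.update (fun i => act π (v i)) i (act π y) =
        fun j => act π (Function.update v i y j) := fun y =>
      (Function.comp_update (act π) v i y).symm
    simp only [eval, ihr, el_act, act_enc, filter_image, image_image, Function.comp_def, e, ihs, ihg,
      act_eq_ord]
  | eq s t ihs iht => simp only [eval, ihs, iht, inj.eq_iff, act_tv]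
  | mem s t ihs iht => simp only [eval, ihs, iht, act_mem_el, act_tv]
  | not t ih => simp only [eval, ih, act_tv, ne_eq, act_eq_ord]
  | and s t ihs iht => simp only [eval, ihs, iht, act_tv, act_eq_ord]
  | rel ρ a b c d iha ihb ihc ihd =>
    simp only [eval, iha, ihb, ihc, ihd, act_tv]
    exact tv_congr (h ρ _ _ _ _ _ _ _ _ trivial trivial trivial trivial (cor_act _) (cor_act _)
      (cor_act _) (cor_act _))

theorem eval_fix (h : Iso π (fun _ => True) R R) (t : Tm σ) {v : ℕ → ℕ}
    (hv : ∀ i, act π (v i) = v i) : act π (eval n R t v) = eval n R t v := by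
  rw [← eval_act h]
  congr 1
  exact funext hv

theorem transGen_act {x y : ℕ} (h : Relation.TransGen (fun a b => a ∈ el n b) y x) :
    Relation.TransGen (fun a b => a ∈ el n b) (act π y) (act π x) :=
  h.lift (act π) fun _ _ hab => act_mem_el.2 hab

end Pool.Agent.Lib.MP_7836d5_lc.CPT
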