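import Pool.Agent.Lib.MP_7836d5_lc.CPT.Defs

set_option autoImplicit false

/-! Basic facts on coded sets, the action of permutations of the atoms. -/

namespace Pool.Agent.Lib.MP_7836d5_lc.CPT

open Finset

variable {n : ℕ}

theorem le_enc (s : Finset ℕ) : n ≤ enc n s := Nat.le_add_right _ _

@[simp] theorem el_enc (s : Finset ℕ) : el n (enc n s) = s := by
  rw [el, if_neg (not_lt.2 (le_enc s)), enc, Nat.add_sub_cancel_left]
  exact Finset.equivBitIndices.apply_symm_apply s

theorem el_atom {x : ℕ} (h : x < n) : el n x = ∅ := if_pos h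

theorem enc_el {x : ℕ} (h : n ≤ x) : enc n (el n x) = x := by
  rw [el, if_neg (not_lt.2 h), enc]
  have : ∑ y ∈ Finset.equivBitIndices (x - n), 2 ^ y = x - n :=
    Finset.equivBitIndices.symm_apply_apply (x - n)
  omega

theorem le_of_mem_el {x y : ℕ} (h : y ∈ el n x) : n ≤ x := by
  by_contra h1
  rw [el_atom (not_le.1 h1)] at h
  exact absurd h (notMem_empty _)

theorem lt_of_mem_el {x y : ℕ} (h : y ∈ el n x) : y < x := by
  have h1 := enc_el (le_of_mem_el h)
  have h2 : 2 ^ y ≤ ∑ y ∈ el n x, 2 ^ y :=
    single_le_sum (f := fun y => 2 ^ y) (fun _ _ => Nat.zero_le _) h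
  have h3 := Nat.lt_two_pow_self (n := y)
  rw [enc] at h1
  omega

theorem ext_el {x y : ℕ} (hx : n ≤ x) (hy : n ≤ y) (h : el n x = el n y) : x = y := by
  rw [← enc_el hx, h, enc_el hy]

theorem le_ord (k : ℕ) : n ≤ ord n k := by
  cases k <;> exact le_enc _

theorem el_ord (k : ℕ) : el n (ord n k) = (range k).image (ord n) := by
  induction k with
  | zero => simp [ord]
  | succ k ih => rw [ord, el_enc, ih, range_add_one, image_insert]

theorem ord_zero_ne : ord n 0 ≠ ord n 1 := by
  intro h
  have := congrArg (el n) h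
  simp [el_ord] at this

theorem tv_eq_one {p : Prop} : tv n p = ord n 1 ↔ p := by
  unfold tv
  split_ifs with h
  · simp [h]
  · simp [h, ord_zero_ne]

theorem tv_congr {p q : Prop} (h : p ↔ q) : tv n p = tv n q := by rw [propext h]

theorem uniq_eq {x y : ℕ} (h : el n x = {y}) : uniq n x = y := by
  have h1 : ∃ y, el n x = {y} := ⟨y, h⟩
  rw [uniq, dif_pos h1]
  exact singleton_inj.1 (h1.choose_spec.symm.trans h)

theorem uniq_ne {x : ℕ} (h : (el n x).card ≠ 1) : uniq n x = enc n ∅ :=
  dif_neg fun h1 => h (card_eq_one.2 h1)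

/-- a permutation of the atoms acts on all objects -/
noncomputable def act (π : Equiv.Perm (Fin n)) (x : ℕ) : ℕ :=
  if h : x < n then π ⟨x, h⟩ else enc n ((el n x).attach.image fun y => act π y.1)
decreasing_by exact lt_of_mem_el y.2

variable {π π' : Equiv.Perm (Fin n)}

theorem act_atom {x : ℕ} (h : x < n) : act π x = π ⟨x, h⟩ := by rw [act, dif_pos h]

theorem act_set {x : ℕ} (h : n ≤ x) : act π x = enc n ((el n x).image (act π)) := by
  rw [act, dif_neg (not_lt.2 h)]
  congr 1
  ext w
  simp

theorem act_enc (s : Finset ℕ) : act π (enc n s) = enc n (s.image (act π)) := by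
  rw [act_set (le_enc s), el_enc]

theorem act_lt {x : ℕ} : act π x < n ↔ x < n := by
  by_cases h : x < n
  · simp [act_atom h, h]
  · rw [act_set (not_lt.1 h)]
    simp [h, le_enc]

theorem el_act (x : ℕ) : el n (act π x) = (el n x).image (act π) := by
  by_cases h : x < n
  · rw [el_atom h, el_atom (act_lt.2 h), image_empty]
  · rw [act_set (not_lt.1 h), el_enc]

theorem act_one (x : ℕ) : act (1 : Equiv.Perm (Fin n)) x = x := by
  induction x using Nat.strong_induction_on with
  | _ x ih =>
    by_cases h : x < n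
    · rw [act_atom h]
      rfl
    · rw [act_set (not_lt.1 h), image_congr (g := id) fun y hy => ih y (lt_of_mem_el hy), image_id,
        enc_el (not_lt.1 h)]

theorem act_mul (x : ℕ) : act (π * π') x = act π (act π' x) := by
  induction x using Nat.strong_induction_on with
  | _ x ih =>
    by_cases h : x < n
    · rw [act_atom h, act_atom h, act_atom (π' ⟨x, h⟩).2]
      rfl
    · rw [act_set (not_lt.1 h), act_set (not_lt.1 h), act_enc, image_image]
      congr 1
      exact image_congr fun y hy => ih y (lt_of_mem_el hy)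

theorem act_injective (π : Equiv.Perm (Fin n)) : Function.Injective (act π) := fun x y h => by
  have := congrArg (act π⁻¹) h
  rwa [← act_mul, ← act_mul, inv_mul_cancel, act_one, act_one] at this

theorem act_mem_el {x y : ℕ} : act π y ∈ el n (act π x) ↔ y ∈ el n x := by
  rw [el_act]
  exact (act_injective π).mem_finset_image

theorem act_ord (k : ℕ) : act π (ord n k) = ord n k := by
  induction k using Nat.strong_induction_on with
  | _ k ih =>
    refine ext_el (not_lt.1 fun h => not_lt.2 (le_ord k) (act_lt.1 h)) (le_ord k) ?_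
    rw [el_act, el_ord, image_image]
    exact image_congr fun j hj => ih j (mem_range.1 hj)

theorem act_eq_ord {x k : ℕ} : act π x = ord n k ↔ x = ord n k := by
  rw [← (act_injective π).eq_iff (a := x), act_ord]

theorem act_tv (p : Prop) : act π (tv n p) = tv n p := by
  unfold tv
  split_ifs <;> exact act_ord _

/-- `x'` is the image of the atom `x`, or both are sets -/
def Cor (π : Equiv.Perm (Fin n)) (x x' : ℕ) : Prop :=
  (∃ h : x < n, x' = π ⟨x, h⟩) ∨ (n ≤ x ∧ n ≤ x')

theorem cor_act (x : ℕ) : Cor π x (act π x) := by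
  by_cases h : x < n
  · exact Or.inl ⟨h, act_atom h⟩
  · exact Or.inr ⟨not_lt.1 h, not_lt.1 fun h1 => h (act_lt.1 h1)⟩

/-- `π` carries the relations `R` to the relations `R'` on arguments in `D` -/
def Iso {σ : Type} (π : Equiv.Perm (Fin n)) (D : ℕ → Prop) (R R' : σ → ℕ → ℕ → ℕ → ℕ → Prop) :
    Prop :=
  ∀ ρ x y z w x' y' z' w', D x → D y → D z → D w → Cor π x x' → Cor π y y' → Cor π z z' →
    Cor π w w' → (R' ρ x' y' z' w' ↔ R ρ x y z w)

end Pool.Agent.Lib.MP_7836d5_lc.CPT
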