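import Pool.Agent.Lib.MP_7836d5_lc.LP.Defs

set_option autoImplicit false

/-! Choiceless computation with counting (BGS logic) on hereditarily finite sets over atoms. -/

namespace Pool.Agent.Lib.MP_7836d5_lc.CPT

/-- Hereditarily finite objects over the atoms `0, …, n - 1` are coded by natural numbers: `x < n`
is an atom, and `n + ∑ y ∈ s, 2 ^ y` is the set with the finite set `s` of elements. -/
def enc (n : ℕ) (s : Finset ℕ) : ℕ := n + ∑ y ∈ s, 2 ^ y

/-- The elements of the object `x` (none for an atom). -/
def el (n x : ℕ) : Finset ℕ := if x < n then ∅ else Finset.equivBitIndices (x - n)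

/-- The von Neumann ordinals. -/
def ord (n : ℕ) : ℕ → ℕ
  | 0 => enc n ∅
  | k + 1 => enc n (insert (ord n k) (el n (ord n k)))

/-- Terms of BGS logic with counting over a vocabulary `σ` of relations of arity at most four.
`comp i s r g` is the comprehension term `{s : vᵢ ∈ r : g}`. Formulas are terms with the values
`1` (true) and `0` (false). -/
inductive Tm (σ : Type) : Type
  | var (i : ℕ)
  | empty
  | atoms
  | pair (s t : Tm σ)
  | union (t : Tm σ)
  | unique (t : Tm σ)
  | card (t : Tm σ)
  | comp (i : ℕ) (s r g : Tm σ)
  | eq (s t : Tm σ)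
  | mem (s t : Tm σ)
  | not (t : Tm σ)
  | and (s t : Tm σ)
  | rel (ρ : σ) (a b c d : Tm σ)

open Classical in
/-- The truth value `1` or `0` of a proposition. -/
noncomputable def tv (n : ℕ) (p : Prop) : ℕ := if p then ord n 1 else ord n 0

open Classical in
/-- The element of a singleton, and the empty set for any other object. -/
noncomputable def uniq (n x : ℕ) : ℕ := if h : ∃ y, el n x = {y} then h.choose else enc n ∅

/-- The value of a term in the structure with `n` atoms and relations `R`, under the assignment
`v` of objects to the variables. -/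
noncomputable def eval {σ : Type} (n : ℕ) (R : σ → ℕ → ℕ → ℕ → ℕ → Prop) : Tm σ → (ℕ → ℕ) → ℕ
  | .var i, v => v i
  | .empty, _ => enc n ∅
  | .atoms, _ => enc n (Finset.range n)
  | .pair s t, v => enc n {eval n R s v, eval n R t v}
  | .union t, v => enc n ((el n (eval n R t v)).biUnion (el n))
  | .unique t, v => uniq n (eval n R t v)
  | .card t, v => ord n (el n (eval n R t v)).card
  | .comp i s r g, v => enc n (((el n (eval n R r v)).filter fun y =>
      eval n R g (Function.update v i y) = ord n 1).image fun y =>
        eval n R s (Function.update v i y))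
  | .eq s t, v => tv n (eval n R s v = eval n R t v)
  | .mem s t, v => tv n (eval n R s v ∈ el n (eval n R t v))
  | .not t, v => tv n (eval n R t v ≠ ord n 1)
  | .and s t, v => tv n (eval n R s v = ord n 1 ∧ eval n R t v = ord n 1)
  | .rel ρ a b c d, v => tv n (R ρ (eval n R a v) (eval n R b v) (eval n R c v) (eval n R d v))

/-- The transitive closure: the elements of `x`, their elements, and so on. -/
def tc (n x : ℕ) : Set ℕ := {y | Relation.TransGen (fun a b => a ∈ el n b) y x}

/-- A set that is built without atoms. -/
def Pure (n x : ℕ) : Prop := n ≤ x ∧ ∀ y ∈ tc n x, n ≤ y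

/-- The stages of the run: the first is `x₀`, the next is the value of `step` with the present
stage assigned to the variables. -/
noncomputable def run {σ : Type} (n : ℕ) (R : σ → ℕ → ℕ → ℕ → ℕ → Prop) (step : Tm σ) (x₀ : ℕ) :
    ℕ → ℕ
  | 0 => x₀
  | i + 1 => eval n R step fun _ => run n R step x₀ i

/-- The program `(step, halt, out)`, run on the structure `(n, R)` from `x₀`, halts after at most
`T` steps with the answer yes, and every stage up to the halting one has a transitive closure of
at most `M` objects. -/
def Accepts {σ : Type} (step halt out : Tm σ) (n : ℕ) (R : σ → ℕ → ℕ → ℕ → ℕ → Prop)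
    (x₀ T M : ℕ) : Prop :=
  ∃ i ≤ T, (∀ j < i, (eval n R halt fun _ => run n R step x₀ j) ≠ ord n 1) ∧
    (eval n R halt fun _ => run n R step x₀ i) = ord n 1 ∧
    (eval n R out fun _ => run n R step x₀ i) = ord n 1 ∧
    ∀ j ≤ i, (tc n (run n R step x₀ j)).encard ≤ M

/-- The vocabulary of machines. -/
inductive Voc : Type
  | state
  | start
  | halt
  | blank
  | move (d : Bool)

/-- A machine with `m` states and `m'` symbols as a structure with `m + m'` atoms: the state `q` is
the atom `q`, the symbol `a` is the atom `m + a`. The first four relations are unary. -/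
def tmRel {m m' : ℕ} (q0 qh : Fin m) (bl : Fin m')
    (δ : Fin m × Fin m' × Fin m × Fin m' × Bool → Bool) : Voc → ℕ → ℕ → ℕ → ℕ → Prop
  | .state, x, _, _, _ => x < m
  | .start, x, _, _, _ => x = q0
  | .halt, x, _, _, _ => x = qh
  | .blank, x, _, _, _ => x = m + bl
  | .move d, x, y, z, w => ∃ q a q' a', δ (q, a, q', a', d) = true ∧
      x = q ∧ y = m + a ∧ z = q' ∧ w = m + a'

end Pool.Agent.Lib.MP_7836d5_lc.CPT
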