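import Pool.Agent.Lib.MP_7836d5_lc.CPT.Tr

set_option autoImplicit false
set_option linter.unusedSectionVars false

/-! The transport commutes with the evaluation of terms and with runs. -/

namespace Pool.Agent.Lib.MP_7836d5_lc.CPT.Sys

open Finset

variable {n l : ℕ} {E C : Type} [Fintype E] [DecidableEq E] [AddCommGroup C] [Fintype C]
  {Y : Sys n l E C} {σ : Type} {R R' : σ → ℕ → ℕ → ℕ → ℕ → Prop}

theorem one_le_rk (t : Tm σ) : 1 ≤ rk t := by
  induction t <;> simp only [rk] <;> first | omega | nlinarith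

/-- `eval_fix` for the permutations `Y.φ (Y.δ (Pi.single e 1))`, `e ∉ S`. -/
theorem supp_eval (h1 : ∀ z, Iso (Y.φ (Y.δ z)) (fun _ => True) R R) (t : Tm σ) {v : ℕ → ℕ}
    {S : Finset E} (hv : ∀ i, Y.supp (v i) ⊆ S) : Y.supp (eval n R t v) ⊆ S := by
  intro e he
  by_contra hS
  refine (mem_filter.1 he).2 (eval_fix (h1 _) t fun i => ?_)
  by_contra h
  exact hS (hv i (mem_filter.2 ⟨mem_univ _, h⟩))

theorem evtr_hs_tv (s : ℕ) (p : Prop) : Y.Hs s (tv n p) := by
  unfold tv
  split_ifs <;> exact hs_ord _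

theorem evtr_tv {S : Finset E} {a : C} (ha : Y.A S a) (p : Prop) :
    Y.tr a (tv n p) = tv n p := by
  unfold tv
  split_ifs <;> exact tr_ord (Y.A_mono (empty_subset _) ha) _

theorem evtr_one {S : Finset E} {a : C} {m x : ℕ} (hl : 4 * m < l) (hx : Y.Hs m x)
    (hS : Y.supp x ⊆ S) (ha : Y.A S a) : Y.tr a x = ord n 1 ↔ x = ord n 1 := by
  have e := tr_ord (Y.A_mono (empty_subset _) ha) 1
  refine ⟨fun h => tr_inj hl hx (hs_ord 1) (Y.A_mono ?_ ha) (h.trans e.symm), fun h => h ▸ e⟩
  rwa [supp_ord, union_empty]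

theorem evtr_enc {S : Finset E} {a : C} {m : ℕ} {U U' : Finset ℕ} (hx : Y.supp (enc n U) ⊆ S)
    (hs : Y.Hs m (enc n U)) (hl : S.card + m < l) (ha : Y.A S a)
    (h : ∀ w, w ∈ U' ↔
      ∃ y ∈ U, ∃ a', Y.A (S ∪ Y.supp y) a' ∧ a' - a ∈ Y.K S ∧ w = Y.tr a' y) :
    enc n U' = Y.tr a (enc n U) := by
  refine ext_el (le_enc _) (not_lt.1 fun h1 => not_lt.2 (le_enc U) (tr_lt.1 h1)) ?_
  ext w
  rw [mem_tr hx hs hl ha, el_enc, el_enc, h]

theorem evtr_ex {S : Finset E} {a : C} {y w : ℕ} (hy : Y.supp y ⊆ S) (ha : Y.A S a) :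
    (∃ a', Y.A (S ∪ Y.supp y) a' ∧ a' - a ∈ Y.K S ∧ w = Y.tr a' y) ↔ w = Y.tr a y := by
  constructor
  · rintro ⟨a', -, h, rfl⟩
    exact tr_congr hy h
  · rintro rfl
    exact ⟨a, by rwa [union_eq_left.2 hy], by simp, rfl⟩

theorem evtr_sub {S : Finset E} {a b c : C} (h : a - b ∈ Y.K S) (h' : b - c ∈ Y.K S) :
    a - c ∈ Y.K S := by
  simpa using (Y.K S).add_mem h h'

/-- Induction on `t`, generalising `s S v a`. Equalities of sets are proved by `ext_el` (`tr_lt`,
`le_enc`) and `mem_tr` (the value has its support in `S` by `supp_eval`). `pair`: `tr_congr`.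
`union`: `mem_tr` twice and `exists_ext`. `unique`, `card`: `card_tr`, `tr_ord`. `comp`: for
`y ∈ el n (eval n R r v)` use the induction hypothesis for `S ∪ supp y`, `(rk r + 1) * s`,
`update v i y` and an extension `a'` of `a` (`tr a' (v j) = tr a (v j)` by `tr_congr`).
Truth values: `tr a (tv n p) = tv n p`, and `tr a x = ord n 1 ↔ x = ord n 1` by `tr_inj`. -/
theorem eval_tr (h1 : ∀ z, Iso (Y.φ (Y.δ z)) (fun _ => True) R R)
    (h2 : ∀ S a, Y.A S a → Iso (Y.φ a) (fun x => Y.supp x ⊆ S) R R') (t : Tm σ) {s : ℕ}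
    {S : Finset E} {v : ℕ → ℕ} {a : C} (h0 : ∀ x < n, (Y.supp x).card ≤ s) (hS : S.card ≤ s)
    (hl : 4 * (rk t * s) < l) (hv : ∀ i, Y.supp (v i) ⊆ S ∧ Y.Hs s (v i)) (ha : Y.A S a) :
    Y.Hs (rk t * s) (eval n R t v) ∧
      eval n R' t (fun i => Y.tr a (v i)) = Y.tr a (eval n R t v) := by
  induction t generalizing s S v a with
  | var i => exact ⟨by simpa [rk, eval] using (hv i).2, rfl⟩
  | empty => exact ⟨hs_ord 0, (tr_ord (Y.A_mono (empty_subset _) ha) 0).symm⟩
  | atoms =>
    have sp := supp_eval h1 .atoms fun i => (hv i).1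
    simp only [rk, one_mul, eval] at hl sp ⊢
    have hs : Y.Hs s (enc n (range n)) := by
      refine Hs.of ((card_le_card sp).trans hS) fun y hy => ?_
      rw [el_enc, mem_range] at hy
      exact Hs.of (h0 y hy) fun z hz => by simp [el_atom hy] at hz
    refine ⟨hs, ext_el (le_enc _) (not_lt.1 fun h => not_lt.2 (le_enc _) (tr_lt.1 h)) ?_⟩
    refine (eq_of_subset_of_card_le (fun w hw => ?_)
      (card_tr hl hs (Y.A_mono sp ha)).ge).symm
    obtain ⟨y, hy, a', -, -, rfl⟩ := (mem_tr sp hs (by omega) ha).1 hw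
    rw [el_enc, mem_range] at hy ⊢
    exact tr_lt.2 hy
  | pair p q ihp ihq =>
    have sp := supp_eval h1 (.pair p q) fun i => (hv i).1
    have sp1 := supp_eval h1 p fun i => (hv i).1
    have sp2 := supp_eval h1 q fun i => (hv i).1
    have k : s ≤ rk p * s := Nat.le_mul_of_pos_left _ (one_le_rk p)
    simp only [rk, add_mul, eval] at hl sp ⊢
    obtain ⟨a1, e1⟩ := ihp h0 hS (by omega) hv ha
    obtain ⟨a2, e2⟩ := ihq h0 hS (by omega) hv ha
    have hs : Y.Hs (rk p * s + rk q * s) (enc n {eval n R p v, eval n R q v}) := by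
      refine Hs.of (((card_le_card sp).trans hS).trans (by omega)) fun y hy => ?_
      rw [el_enc, mem_insert, mem_singleton] at hy
      rcases hy with rfl | rfl
      · exact a1.mono (by omega)
      · exact a2.mono (by omega)
    refine ⟨hs, evtr_enc sp hs (by omega) ha fun w => ?_⟩
    simp only [mem_insert, mem_singleton, exists_eq_or_imp, exists_eq_left, evtr_ex sp1 ha,
      evtr_ex sp2 ha, e1, e2]
  | union p ih =>
    have sp := supp_eval h1 (.union p) fun i => (hv i).1
    have sp1 := supp_eval h1 p fun i => (hv i).1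
    have k : s ≤ rk p * s := Nat.le_mul_of_pos_left _ (one_le_rk p)
    simp only [rk, eval] at hl sp ⊢
    obtain ⟨a1, e1⟩ := ih h0 hS hl hv ha
    have hs : Y.Hs (rk p * s) (enc n ((el n (eval n R p v)).biUnion (el n))) := by
      refine Hs.of (((card_le_card sp).trans hS).trans k) fun y hy => ?_
      rw [el_enc, mem_biUnion] at hy
      obtain ⟨z, hz, hy⟩ := hy
      exact (a1.mem hz).mem hy
    refine ⟨hs, evtr_enc sp hs (by omega) ha fun w => ?_⟩
    rw [e1, mem_biUnion]
    constructor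
    · rintro ⟨_, hy', hw⟩
      obtain ⟨y, hy, b, hb, kb, rfl⟩ := (mem_tr sp1 a1 (by omega) ha).1 hy'
      have c1 := card_union_le S (Y.supp y)
      have c2 := (a1.mem hy).card
      obtain ⟨z, hz, c, hc, kc, rfl⟩ :=
        (mem_tr subset_union_right (a1.mem hy) (by omega) hb).1 hw
      exact ⟨z, mem_biUnion.2 ⟨y, hy, hz⟩, c,
        Y.A_mono (union_subset_union_left subset_union_left) hc,
        evtr_sub (Y.K_mono subset_union_left kc) kb, rfl⟩
    · rintro ⟨z, hz, b, hb, kb, rfl⟩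
      obtain ⟨y, hy, hz⟩ := mem_biUnion.1 hz
      have c1 := card_union_le S (Y.supp z)
      have c2 := (a1.mem hy).card
      have c3 := ((a1.mem hy).mem hz).card
      have c4 := card_union_le (S ∪ Y.supp z) (Y.supp y)
      obtain ⟨c, hc, kc⟩ := exists_ext (S' := S ∪ Y.supp z ∪ Y.supp y) subset_union_left
        (by omega) hb
      refine ⟨Y.tr c y, (mem_tr sp1 a1 (by omega) ha).2 ⟨y, hy, c,
        Y.A_mono (union_subset_union_left subset_union_left) hc,
        evtr_sub (Y.K_mono subset_union_left kc) kb, rfl⟩, ?_⟩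
      rw [← tr_congr subset_union_right kc]
      exact (tr_mem_iff hl (a1.mem hy) ((a1.mem hy).mem hz) (Y.A_mono (union_subset
        subset_union_right (subset_union_right.trans subset_union_left)) hc)).2 hz
  | unique p ih =>
    have sp := supp_eval h1 (.unique p) fun i => (hv i).1
    have sp1 := supp_eval h1 p fun i => (hv i).1
    have k : s ≤ rk p * s := Nat.le_mul_of_pos_left _ (one_le_rk p)
    simp only [rk, eval] at hl sp ⊢
    obtain ⟨a1, e1⟩ := ih h0 hS hl hv ha
    rw [e1]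
    by_cases h : (el n (eval n R p v)).card = 1
    · obtain ⟨y, hy⟩ := card_eq_one.1 h
      rw [uniq_eq hy] at sp ⊢
      refine ⟨a1.mem (hy ▸ mem_singleton_self y), uniq_eq ?_⟩
      ext w
      simp only [mem_tr sp1 a1 (by omega) ha, hy, mem_singleton, exists_eq_left, evtr_ex sp ha]
    · rw [uniq_ne h, uniq_ne (by rwa [card_tr hl a1 (Y.A_mono sp1 ha)])]
      exact ⟨hs_ord 0, (tr_ord (Y.A_mono (empty_subset _) ha) 0).symm⟩
  | card p ih =>
    have sp1 := supp_eval h1 p fun i => (hv i).1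
    simp only [rk, eval] at hl ⊢
    obtain ⟨a1, e1⟩ := ih h0 hS hl hv ha
    rw [e1, card_tr hl a1 (Y.A_mono sp1 ha), tr_ord (Y.A_mono (empty_subset _) ha)]
    exact ⟨hs_ord _, rfl⟩
  | comp i p r g ihp ihr ihg =>
    have sp := supp_eval h1 (.comp i p r g) fun i => (hv i).1
    have sp1 := supp_eval h1 r fun i => (hv i).1
    obtain ⟨u, hu⟩ : ∃ u, u = (rk r + 1) * s := ⟨_, rfl⟩
    have k0 : u = rk r * s + s := by rw [hu, add_mul, one_mul]
    have k1 : u ≤ rk p * u := Nat.le_mul_of_pos_left _ (one_le_rk p)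
    have k2 : rk (.comp i p r g) * s = rk p * u + rk g * u := by
      rw [rk, hu]
      ring
    rw [k2] at hl ⊢
    simp only [eval] at sp ⊢
    obtain ⟨a1, e1⟩ := ihr h0 hS (by omega) hv ha
    have cy : ∀ y ∈ el n (eval n R r v), (S ∪ Y.supp y).card ≤ u := fun y hy => by
      have c1 := card_union_le S (Y.supp y)
      have c2 := (a1.mem hy).card
      omega
    have hv' : ∀ y ∈ el n (eval n R r v), ∀ j, Y.supp (Function.update v i y j) ⊆ S ∪ Y.supp y ∧
        Y.Hs u (Function.update v i y j) := fun y hy j => by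
      by_cases e : j = i
      · rw [e, Function.update_self]
        exact ⟨subset_union_right, (a1.mem hy).mono (by omega)⟩
      · rw [Function.update_of_ne e]
        exact ⟨(hv j).1.trans subset_union_left, (hv j).2.mono (by omega)⟩
    have h0' : ∀ x < n, (Y.supp x).card ≤ u := fun x hx => (h0 x hx).trans (by omega)
    have up : ∀ y b, b - a ∈ Y.K S → Function.update (fun j => Y.tr a (v j)) i (Y.tr b y) =
        fun j => Y.tr b (Function.update v i y j) := fun y b kb => by
      funext j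
      by_cases e : j = i
      · rw [e, Function.update_self, Function.update_self]
      · rw [Function.update_of_ne e, Function.update_of_ne e, tr_congr (hv j).1 kb]
    have key : ∀ y ∈ el n (eval n R r v), ∀ b, Y.A (S ∪ Y.supp y) b → b - a ∈ Y.K S →
        Y.Hs (rk p * u) (eval n R p (Function.update v i y)) ∧
        eval n R' p (Function.update (fun j => Y.tr a (v j)) i (Y.tr b y)) =
          Y.tr b (eval n R p (Function.update v i y)) ∧
        (eval n R' g (Function.update (fun j => Y.tr a (v j)) i (Y.tr b y)) = ord n 1 ↔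
          eval n R g (Function.update v i y) = ord n 1) := fun y hy b hb kb => by
      obtain ⟨a2, e2⟩ := ihp h0' (cy y hy) (by omega) (hv' y hy) hb
      obtain ⟨a3, e3⟩ := ihg h0' (cy y hy) (by omega) (hv' y hy) hb
      rw [up y b kb, e2, e3]
      exact ⟨a2, rfl, evtr_one (by omega) a3 (supp_eval h1 g fun j => (hv' y hy j).1) hb⟩
    have sz : ∀ y ∈ el n (eval n R r v),
        S ∪ Y.supp (eval n R p (Function.update v i y)) ⊆ S ∪ Y.supp y := fun y hy =>
      union_subset subset_union_left (supp_eval h1 p fun j => (hv' y hy j).1)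
    have hs : Y.Hs (rk p * u + rk g * u) (enc n (((el n (eval n R r v)).filter fun y =>
        eval n R g (Function.update v i y) = ord n 1).image fun y =>
          eval n R p (Function.update v i y))) := by
      refine Hs.of (((card_le_card sp).trans hS).trans (by omega)) fun z hz => ?_
      rw [el_enc, mem_image] at hz
      obtain ⟨y, hy, rfl⟩ := hz
      have hy := (mem_filter.1 hy).1
      obtain ⟨b, hb, kb⟩ := exists_ext (S' := S ∪ Y.supp y) subset_union_left
        ((cy y hy).trans_lt (by omega)) ha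
      exact (key y hy b hb kb).1.mono (by omega)
    refine ⟨hs, evtr_enc sp hs (by omega) ha fun w => ?_⟩
    rw [e1, mem_image]
    constructor
    · rintro ⟨y', hy', rfl⟩
      obtain ⟨hy', hg⟩ := mem_filter.1 hy'
      obtain ⟨y, hy, b, hb, kb, rfl⟩ := (mem_tr sp1 a1 (by omega) ha).1 hy'
      obtain ⟨-, e2, e3⟩ := key y hy b hb kb
      exact ⟨_, mem_image.2 ⟨y, mem_filter.2 ⟨hy, e3.1 hg⟩, rfl⟩, b, Y.A_mono (sz y hy) hb, kb, e2⟩
    · rintro ⟨z, hz, b, hb, kb, rfl⟩
      obtain ⟨y, hy, rfl⟩ := mem_image.1 hz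
      obtain ⟨hy, hg⟩ := mem_filter.1 hy
      obtain ⟨c, hc, kc⟩ := exists_ext (sz y hy) ((cy y hy).trans_lt (by omega)) hb
      have kc' := evtr_sub (Y.K_mono subset_union_left kc) kb
      obtain ⟨-, e2, e3⟩ := key y hy c hc kc'
      exact ⟨Y.tr c y, mem_filter.2 ⟨(mem_tr sp1 a1 (by omega) ha).2 ⟨y, hy, c, hc, kc', rfl⟩,
        e3.2 hg⟩, e2.trans (tr_congr subset_union_right kc)⟩
  | eq p q ihp ihq =>
    have sp := union_subset (supp_eval h1 p fun i => (hv i).1) (supp_eval h1 q fun i => (hv i).1)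
    simp only [rk, add_mul, eval] at hl ⊢
    obtain ⟨a1, e1⟩ := ihp h0 hS (by omega) hv ha
    obtain ⟨a2, e2⟩ := ihq h0 hS (by omega) hv ha
    rw [e1, e2, evtr_tv ha]
    exact ⟨evtr_hs_tv _ _, tv_congr ⟨tr_inj hl (a1.mono (by omega)) (a2.mono (by omega))
      (Y.A_mono sp ha), congrArg _⟩⟩
  | mem p q ihp ihq =>
    have sp := union_subset (supp_eval h1 q fun i => (hv i).1) (supp_eval h1 p fun i => (hv i).1)
    simp only [rk, add_mul, eval] at hl ⊢
    obtain ⟨a1, e1⟩ := ihp h0 hS (by omega) hv ha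
    obtain ⟨a2, e2⟩ := ihq h0 hS (by omega) hv ha
    rw [e1, e2, evtr_tv ha]
    exact ⟨evtr_hs_tv _ _, tv_congr (tr_mem_iff hl (a2.mono (by omega)) (a1.mono (by omega))
      (Y.A_mono sp ha))⟩
  | not p ih =>
    simp only [rk, eval] at hl ⊢
    obtain ⟨a1, e1⟩ := ih h0 hS hl hv ha
    rw [e1, evtr_tv ha]
    exact ⟨evtr_hs_tv _ _, tv_congr (evtr_one hl a1 (supp_eval h1 p fun i => (hv i).1) ha).not⟩
  | and p q ihp ihq =>
    simp only [rk, add_mul, eval] at hl ⊢
    obtain ⟨a1, e1⟩ := ihp h0 hS (by omega) hv ha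
    obtain ⟨a2, e2⟩ := ihq h0 hS (by omega) hv ha
    rw [e1, e2, evtr_tv ha]
    exact ⟨evtr_hs_tv _ _, tv_congr (and_congr
      (evtr_one (by omega) a1 (supp_eval h1 p fun i => (hv i).1) ha)
      (evtr_one (by omega) a2 (supp_eval h1 q fun i => (hv i).1) ha))⟩
  | rel ρ p q r u ihp ihq ihr ihu =>
    simp only [rk, add_mul, eval] at hl ⊢
    rw [(ihp h0 hS (by omega) hv ha).2, (ihq h0 hS (by omega) hv ha).2,
      (ihr h0 hS (by omega) hv ha).2, (ihu h0 hS (by omega) hv ha).2, evtr_tv ha]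
    exact ⟨evtr_hs_tv _ _, tv_congr (h2 S a ha ρ _ _ _ _ _ _ _ _
      (supp_eval h1 p fun i => (hv i).1) (supp_eval h1 q fun i => (hv i).1)
      (supp_eval h1 r fun i => (hv i).1) (supp_eval h1 u fun i => (hv i).1)
      cor_tr cor_tr cor_tr cor_tr)⟩

end Pool.Agent.Lib.MP_7836d5_lc.CPT.Sys
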