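import Pool.Agent.Lib.MP_7836d5_lc.CPT.Basic
import Pool.Agent.Lib.MP_7836d5_lc.LP.TM

set_option autoImplicit false
set_option linter.unusedSectionVars false

/-! Permutations of the domains of a constraint system act on the machine that solves it. -/

namespace Pool.Agent.Lib.MP_7836d5_lc.CPT

open LP

/-- states -/
abbrev St (m : ℕ) (D : Type) : Type := Option (Fin (m + 1) ⊕ Fin (m + 1) × D)

/-- symbols -/
abbrev Sy (m : ℕ) (D : Type) : Type := Option (Fin (m + 1) × D)

/-- number of atoms -/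
abbrev NN (m : ℕ) (D : Type) [Fintype D] : ℕ := Fintype.card (St m D) + Fintype.card (Sy m D)

variable {m : ℕ} {D : Type} [Fintype D]

/-- numbering of the states -/
noncomputable def eQ (m : ℕ) (D : Type) [Fintype D] : St m D ≃ Fin (Fintype.card (St m D)) :=
  Fintype.equivFin _

/-- numbering of the symbols -/
noncomputable def eG (m : ℕ) (D : Type) [Fintype D] : Sy m D ≃ Fin (Fintype.card (Sy m D)) :=
  Fintype.equivFin _

/-- numbering of the atoms -/
noncomputable def eA (m : ℕ) (D : Type) [Fintype D] : St m D ⊕ Sy m D ≃ Fin (NN m D) :=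
  ((eQ m D).sumCongr (eG m D)).trans finSumFinEquiv

/-- action on the states -/
def pQ (g : Fin (m + 1) → Equiv.Perm D) : Equiv.Perm (St m D) :=
  Equiv.optionCongr ((Equiv.refl _).sumCongr (Equiv.prodCongrRight g))

/-- action on the symbols -/
def pG (g : Fin (m + 1) → Equiv.Perm D) : Equiv.Perm (Sy m D) :=
  Equiv.optionCongr (Equiv.prodCongrRight g)

/-- action on the atoms -/
noncomputable def lift (g : Fin (m + 1) → Equiv.Perm D) : Equiv.Perm (Fin (NN m D)) :=
  (eA m D).permCongr ((pQ g).sumCongr (pG g))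

/-- the transition table with numbered states and symbols -/
noncomputable def mT (con : Fin (m + 1) → D → Fin (m + 1) → D → Prop) (p : Fin (m + 1) × D → Bool) :=
  mapT (eQ m D).toEmbedding (eG m D).toEmbedding (mach con p)

/-- the machine as a structure -/
noncomputable def mR (con : Fin (m + 1) → D → Fin (m + 1) → D → Prop) (p : Fin (m + 1) × D → Bool) :
    Voc → ℕ → ℕ → ℕ → ℕ → Prop :=
  tmRel (eQ m D (some (Sum.inl 0))) (eQ m D none) (eG m D none) (mT con p)

theorem NN_eq : NN m D = 2 + (m + 1) + 2 * ((m + 1) * Fintype.card D) := by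
  simp only [NN, Fintype.card_option, Fintype.card_sum, Fintype.card_prod, Fintype.card_fin]
  ring

theorem lift_eA (g : Fin (m + 1) → Equiv.Perm D) (u : St m D ⊕ Sy m D) :
    lift g (eA m D u) = eA m D ((pQ g).sumCongr (pG g) u) := by
  rw [lift, Equiv.permCongr_apply, Equiv.symm_apply_apply]

theorem lift_mul (g g' : Fin (m + 1) → Equiv.Perm D) : lift (g * g') = lift g * lift g' := by
  refine Equiv.ext fun u => ?_
  obtain ⟨u, rfl⟩ := (eA m D).surjective u
  rw [Equiv.Perm.mul_apply, lift_eA, lift_eA, lift_eA]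
  rcases u with (_ | v | ⟨v, α⟩) | _ | ⟨v, α⟩ <;> rfl

theorem lift_sym (g : Fin (m + 1) → Equiv.Perm D) (v : Fin (m + 1)) (α : D) :
    lift g (eA m D (Sum.inr (some (v, α)))) = eA m D (Sum.inr (some (v, α))) ↔ g v α = α := by
  rw [lift_eA, Equiv.apply_eq_iff_eq]
  change Sum.inr (some (v, g v α)) = _ ↔ _
  simp

theorem lift_atom (u : Fin (NN m D)) : (∀ g : Fin (m + 1) → Equiv.Perm D, lift g u = u) ∨
    ∃ v α, ∀ g : Fin (m + 1) → Equiv.Perm D, lift g u = u ↔ g v α = α := by
  obtain ⟨u, rfl⟩ := (eA m D).surjective u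
  rcases u with (_ | v | ⟨v, α⟩) | _ | ⟨v, α⟩
  · exact Or.inl fun g => lift_eA g _
  · exact Or.inl fun g => lift_eA g _
  · refine Or.inr ⟨v, α, fun g => ?_⟩
    rw [lift_eA, Equiv.apply_eq_iff_eq]
    change Sum.inl (some (Sum.inr (v, g v α))) = _ ↔ _
    simp
  · exact Or.inl fun g => lift_eA g _
  · exact Or.inr ⟨v, α, fun g => lift_sym g v α⟩

/-- action on the transitions -/
def liftT (g : Fin (m + 1) → Equiv.Perm D) (t : St m D × Sy m D × St m D × Sy m D × Bool) :
    St m D × Sy m D × St m D × Sy m D × Bool :=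
  (pQ g t.1, pG g t.2.1, pQ g t.2.2.1, pG g t.2.2.2.1, t.2.2.2.2)

section

variable {g : Fin (m + 1) → Equiv.Perm D} {con : Fin (m + 1) → D → Fin (m + 1) → D → Prop}
  {p p' : Fin (m + 1) × D → Bool} {t : St m D × Sy m D × St m D × Sy m D × Bool}

theorem lift_invQ (q : St m D) : pQ g⁻¹ (pQ g q) = q := by
  rcases q with _ | v | ⟨v, α⟩
  · rfl
  · rfl
  · exact congrArg (fun β => some (Sum.inr (v, β))) ((g v).symm_apply_apply α)

theorem lift_invG (a : Sy m D) : pG g⁻¹ (pG g a) = a := by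
  rcases a with _ | ⟨v, α⟩
  · rfl
  · exact congrArg (fun β => some (v, β)) ((g v).symm_apply_apply α)

theorem lift_fwd (hc : ∀ u β v α, con u β v α → con u (g u β) v (g v α))
    (hp : ∀ v α, t.2.2.2.1 = some (v, α) → p (v, α) = true → p' (v, g v α) = true)
    (h : mach con p t = true) : mach con p' (liftT g t) = true := by
  simp only [mach, decide_eq_true_eq] at h ⊢
  rcases h with ⟨v, ⟨u, β⟩, rfl⟩ | ⟨v, α, h, rfl⟩ | ⟨v, α, u, β, h, rfl⟩ | ⟨v, α, rfl⟩
  · exact Or.inl ⟨v, (u, g u β), rfl⟩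
  · exact Or.inr (Or.inl ⟨v, g v α, hp v α rfl h, rfl⟩)
  · exact Or.inr (Or.inr (Or.inl ⟨v, g v α, u, g u β, hc u β v α h, rfl⟩))
  · refine Or.inr (Or.inr (Or.inr ⟨v, g v α, ?_⟩))
    unfold liftT
    split_ifs <;> rfl

theorem lift_mach (hc : ∀ u β v α, con u (g u β) v (g v α) ↔ con u β v α)
    (hp : ∀ v α, t.2.2.2.1 = some (v, α) → p' (v, g v α) = p (v, α)) :
    mach con p' (liftT g t) = true ↔ mach con p t = true := by
  refine ⟨fun h => ?_, lift_fwd (fun u β v α => (hc u β v α).2) fun v α e h => (hp v α e).trans h⟩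
  have e0 (v : Fin (m + 1)) (α : D) : g v (g⁻¹ v α) = α := (g v).apply_symm_apply α
  have h1 := lift_fwd (g := g⁻¹) (p' := p)
    (fun u β v α h => (hc u _ v _).1 (by rwa [e0, e0])) (fun v α e h => by
      rw [← hp v _ ((lift_invG _).symm.trans (congrArg (pG g⁻¹) e)), ← h]
      exact congrArg (fun β => p' (v, β)) (e0 v α)) h
  simpa only [liftT, lift_invQ, lift_invG] using h1

theorem lift_cor {x x' : ℕ} (h : Cor (lift g) x x') (u : St m D ⊕ Sy m D) :
    x' = eA m D ((pQ g).sumCongr (pG g) u) ↔ x = eA m D u := by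
  rcases h with ⟨h, rfl⟩ | ⟨h1, h2⟩
  · rw [← lift_eA, Fin.val_inj, Equiv.apply_eq_iff_eq, Fin.ext_iff]
  · exact iff_of_false (fun e => absurd (e ▸ h2) (Fin.isLt _).not_ge)
      fun e => absurd (e ▸ h1) (Fin.isLt _).not_ge

theorem lift_lt {x : ℕ} : x < Fintype.card (St m D) ↔ ∃ q, x = eA m D (Sum.inl q) := by
  refine ⟨fun h => ⟨(eQ m D).symm ⟨x, h⟩, ?_⟩, ?_⟩
  · exact (congrArg Fin.val ((eQ m D).apply_symm_apply ⟨x, h⟩)).symm
  · rintro ⟨q, rfl⟩
    exact (eQ m D q).isLt

theorem lift_rel {d : Bool} {x y z w : ℕ} : mR con p (Voc.move d) x y z w ↔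
    ∃ q a q' a', mach con p (q, a, q', a', d) = true ∧ x = eA m D (Sum.inl q) ∧
      y = eA m D (Sum.inr a) ∧ z = eA m D (Sum.inl q') ∧ w = eA m D (Sum.inr a') := by
  constructor
  · rintro ⟨q, a, q', a', h, h'⟩
    simp only [mT, mapT, decide_eq_true_eq, Prod.mk.injEq] at h
    obtain ⟨_, _, _, _, _, h, rfl, rfl, rfl, rfl, rfl⟩ := h
    exact ⟨_, _, _, _, h, h'⟩
  · rintro ⟨q, a, q', a', h, h'⟩
    refine ⟨eQ m D q, eG m D a, eQ m D q', eG m D a', ?_, h'⟩
    simp only [mT, mapT, decide_eq_true_eq]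
    exact ⟨_, _, _, _, _, h, rfl⟩

end

/-- First `mach con p' (pQ g q, pG g a, pQ g q', pG g a', d) = mach con p (q, a, q', a', d)` if
`p' (v, g v α) = p (v, α)` whenever `a' = some (v, α)`. Then note `(eA (inl q) : ℕ) = eQ q`,
`(eA (inr a) : ℕ) = card St + eG a`, and that `Cor (lift g) x x'` gives
`x = eA u ↔ x' = eA (((pQ g).sumCongr (pG g)) u)` for every `u`. -/
theorem lift_iso {g : Fin (m + 1) → Equiv.Perm D} {con : Fin (m + 1) → D → Fin (m + 1) → D → Prop}
    {p p' : Fin (m + 1) × D → Bool} {P : ℕ → Prop}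
    (hc : ∀ u β v α, con u (g u β) v (g v α) ↔ con u β v α)
    (hp : ∀ v α, P (eA m D (Sum.inr (some (v, α)))) → p' (v, g v α) = p (v, α)) :
    Iso (lift g) P (mR con p) (mR con p') := by
  intro ρ x y z w x' y' z' w' _ _ _ hw cx cy cz cw
  cases ρ with
  | state =>
    exact lift_lt.trans (((pQ g).surjective.exists.trans
      (exists_congr fun q => lift_cor cx (Sum.inl q))).trans lift_lt.symm)
  | start => exact lift_cor cx (Sum.inl (some (Sum.inl 0)))
  | halt => exact lift_cor cx (Sum.inl none)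
  | blank => exact lift_cor cx (Sum.inr none)
  | move d =>
    rw [lift_rel, lift_rel]
    refine (pQ g).surjective.exists.trans (exists_congr fun q =>
      (pG g).surjective.exists.trans (exists_congr fun a =>
      (pQ g).surjective.exists.trans (exists_congr fun q' =>
      (pG g).surjective.exists.trans (exists_congr fun a' => ?_))))
    refine (and_congr_right' (and_congr (lift_cor cx (Sum.inl q)) (and_congr
      (lift_cor cy (Sum.inr a)) (and_congr (lift_cor cz (Sum.inl q'))
      (lift_cor cw (Sum.inr a')))))).trans (and_congr_left fun h =>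
        lift_mach (t := (q, a, q', a', d)) hc fun v α e => hp v α ?_)
    rw [← show a' = some (v, α) from e, ← h.2.2.2]
    exact hw

end Pool.Agent.Lib.MP_7836d5_lc.CPT
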