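import Mathlib

set_option autoImplicit false

/-! Objects in a small invariant set have a small central support. -/

namespace Pool.Agent.Lib.MP_7836d5_lc.CPT

open Finset

theorem supp_half {A E : Type} [AddCommGroup A] [Finite A] (S : Finset E) (f : E → A →+ ZMod 2)
    (hf : ∀ e ∈ S, ∃ a, f e a ≠ 0) : ∃ a, S.card ≤ 2 * (S.filter fun e => f e a = 1).card := by
  classical
  have := Fintype.ofFinite A
  have h1 : ∀ c : ZMod 2, c ≠ 0 → c = 1 := by decide
  have h2 : ∀ c : ZMod 2, ¬c = 1 → c + 1 = 1 := by decide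
  have h3 : ∀ e ∈ S, (univ : Finset A).card ≤ 2 * (univ.filter fun a => f e a = 1).card := by
    intro e he
    obtain ⟨a, ha⟩ := hf e he
    have k : (univ.filter fun a => ¬f e a = 1).card ≤ (univ.filter fun a => f e a = 1).card :=
      card_le_card_of_injOn (· + a) (fun b hb => by
        simp only [coe_filter, mem_univ, true_and, Set.mem_ofPred_eq] at hb ⊢
        rw [map_add, h1 _ ha, h2 _ hb]) (add_left_injective a).injOn
    have := card_filter_add_card_filter_not (s := (univ : Finset A)) (fun a => f e a = 1)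
    omega
  have h4 : ∑ _a : A, S.card ≤ ∑ a : A, 2 * (S.filter fun e => f e a = 1).card := by
    have k : ∑ a : A, (S.filter fun e => f e a = 1).card =
        ∑ e ∈ S, (univ.filter fun a => f e a = 1).card :=
      sum_card_bipartiteAbove_eq_sum_card_bipartiteBelow fun (a : A) (e : E) => f e a = 1
    rw [← mul_sum, k, mul_sum, sum_const, smul_eq_mul, mul_comm, ← smul_eq_mul, ← sum_const]
    exact sum_le_sum h3
  obtain ⟨a, -, ha⟩ := exists_le_of_sum_le univ_nonempty h4
  exact ⟨a, ha⟩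

/-- The stabiliser of a point. -/
def suppSt {α W : Type} [AddCommGroup W] [Module (ZMod 2) W] (ψ : W → α → α) (ψ0 : ∀ x, ψ 0 x = x)
    (ψ_add : ∀ h h' x, ψ (h + h') x = ψ h (ψ h' x)) (x : α) : Submodule (ZMod 2) W where
  carrier := {h | ψ h x = x}
  zero_mem' := ψ0 x
  add_mem' := fun {a b} ha hb => by
    rw [Set.mem_ofPred_eq] at ha hb ⊢
    rw [ψ_add, hb, ha]
  smul_mem' := fun c h hh => by
    have : ∀ c : ZMod 2, c = 0 ∨ c = 1 := by decide
    rcases this c with rfl | rfl
    · rw [zero_smul]; exact ψ0 x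
    · rw [one_smul]; exact hh

theorem supp_card {α W : Type} [AddCommGroup W] [Module (ZMod 2) W] [Finite W] (ψ : W → α → α)
    (ψ0 : ∀ x, ψ 0 x = x) (ψ_add : ∀ h h' x, ψ (h + h') x = ψ h (ψ h' x)) (X : Finset α)
    (hψ : ∀ h, ∀ x ∈ X, ψ h x ∈ X) {x : α} (hx : x ∈ X) :
    Nat.card (suppSt ψ ψ0 ψ_add x).dualAnnihilator ≤ X.card := by
  rw [← Nat.card_congr (Subspace.quotEquivAnnihilator (suppSt ψ ψ0 ψ_add x)).toEquiv,
    ← Fintype.card_coe X, ← Nat.card_eq_fintype_card]
  refine Nat.card_le_card_of_injective (fun q => (⟨ψ q.out x, hψ _ x hx⟩ : X)) fun q q' h => ?_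
  have e : ψ q.out x = ψ q'.out x := congrArg Subtype.val h
  rw [← q.out_eq, ← q'.out_eq]
  refine (Submodule.Quotient.eq _).2 (show ψ (q.out - q'.out) x = x from ?_)
  rw [sub_eq_neg_add, ψ_add, e, ← ψ_add, neg_add_cancel, ψ0]

/-- Translation of the arguments. -/
def suppSh {E V : Type} [Add V] (u : E → V) : (E → V → ZMod 2) →ₗ[ZMod 2] (E → V → ZMod 2) where
  toFun h e y := h e (y + u e)
  map_add' _ _ := rfl
  map_smul' _ _ := rfl

theorem supp_inj {E V : Type} [Fintype E] [DecidableEq E] [AddCommGroup V] [Fintype V]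
    (hV : ∀ y : V, y + y = 0) (χ : Module.Dual (ZMod 2) (E → V → ZMod 2)) {u u' : E → V}
    (h : χ.comp (suppSh u) = χ.comp (suppSh u')) {e : E}
    (he : χ (fun e' _ => (Pi.single e 1 : E → ZMod 2) e') = 1) : u e = u' e := by
  classical
  by_contra hne
  let k : V → ZMod 2 := fun y => χ (Pi.single e (Pi.single y 1))
  have k1 : ∀ (v : E → V) y, suppSh v (Pi.single e (Pi.single y 1)) =
      Pi.single e (Pi.single (y + v e) 1) := by
    intro v y
    funext e' y'
    change (Pi.single e (Pi.single y 1) : E → V → ZMod 2) e' (y' + v e') = _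
    by_cases h' : e' = e
    · subst h'
      simp only [Pi.single_eq_same, Pi.single_apply]
      refine if_congr ⟨fun h => ?_, fun h => ?_⟩ rfl rfl
      · rw [← h, add_assoc, hV, add_zero]
      · rw [h, add_assoc, hV, add_zero]
    · simp [h']
  have k2 : ∀ y, k (y + u e) = k (y + u' e) := fun y => by
    have := LinearMap.congr_fun h (Pi.single e (Pi.single y 1))
    rwa [LinearMap.comp_apply, LinearMap.comp_apply, k1, k1] at this
  have k3 : ∀ y, k (y + (u' e + u e)) = k y := fun y => by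
    rw [← add_assoc, k2, add_assoc, hV, add_zero]
  have k4 : (fun e' _ => (Pi.single e 1 : E → ZMod 2) e' : E → V → ZMod 2) =
      ∑ y : V, Pi.single e (Pi.single y 1) := by
    funext e' y'
    by_cases h' : e' = e
    · subst h'
      simp [Finset.sum_apply, Pi.single_apply]
    · simp [Finset.sum_apply, h']
  have k5 : ∑ y, k y = 0 := by
    refine sum_involution (fun y _ => y + (u' e + u e)) (fun y _ => ?_) (fun y _ _ hy => hne ?_)
      (fun _ _ => mem_univ _) (fun y _ => ?_)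
    · rw [k3]; exact CharTwo.add_self_eq_zero _
    · have := add_eq_left.1 hy
      rw [← zero_add (u e), ← hV (u' e), add_assoc, this, add_zero]
    · rw [add_assoc, hV, add_zero]
  rw [k4, map_sum] at he
  exact zero_ne_one (k5.symm.trans he)

/-- Let `W = E → V → ZMod 2`, `W x = {h | ψ h x = x}` (a `ZMod 2`-submodule), `Ann x` its
`dualAnnihilator`. `Nat.card (Ann x) = Nat.card (W ⧸ W x) ≤ #X` (`Subspace.quotEquivAnnihilator`;
`h ↦ ψ h x` induces an injection of the quotient into `X`). Let `S` be the filtered set and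
`z e = fun e' _ => Pi.single e 1 e'`. For `e ∈ S` some `χ₀ ∈ Ann x` has `χ₀ (z e) = 1`
(`Subspace.forall_mem_dualAnnihilator_apply_eq_zero_iff`), so `χ ↦ χ + χ₀` injects
`{χ (z e) = 0}` into `{χ (z e) = 1}`; double counting gives `χ ∈ Ann x` with
`S' = {e ∈ S | χ (z e) = 1}`, `#S ≤ 2 * #S'`. For `u : E → V` let
`χ_u h = χ (fun e y => h e (y + u e))`; it lies in `Ann (θ u x)` (if `ψ h (θ u x) = θ u x` then
`hc` and injectivity give `ψ (fun e y => h e (y + u e)) x = x`). The map `u ↦ χ_u` is injective on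
the `u` vanishing outside `S'`: if `χ_u = χ_u'`, `e ∈ S'`, `w = u e + u' e ≠ 0`, then
`k y = χ (Pi.single e (Pi.single y 1))` satisfies `k (y + w) = k y`, so
`χ (z e) = ∑ y, k y = 0` by `Finset.sum_involution`. Hence `#V ^ #S' ≤ #X * #X`. -/
theorem supp_small {α E V : Type} [DecidableEq α] [Fintype E] [DecidableEq E] [AddCommGroup V]
    [Fintype V] (hV : ∀ y : V, y + y = 0) (ψ : (E → V → ZMod 2) → α → α) (θ : (E → V) → α → α)
    (ψ0 : ∀ x, ψ 0 x = x) (ψ_add : ∀ h h' x, ψ (h + h') x = ψ h (ψ h' x))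
    (θ_inj : ∀ u, Function.Injective (θ u))
    (hc : ∀ u h x, θ u (ψ (fun e y => h e (y + u e)) x) = ψ h (θ u x))
    (X : Finset α) (hψ : ∀ h, ∀ x ∈ X, ψ h x ∈ X) (hθ : ∀ u, ∀ x ∈ X, θ u x ∈ X) {x : α}
    (hx : x ∈ X) :
    Fintype.card V ^ (univ.filter fun e : E =>
      ψ (fun e' _ => (Pi.single e 1 : E → ZMod 2) e') x ≠ x).card ≤ X.card ^ 4 := by
  classical
  have fin : Finite (Module.Dual (ZMod 2) (E → V → ZMod 2)) := DFunLike.finite _
  have := Fintype.ofFinite (Module.Dual (ZMod 2) (E → V → ZMod 2))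
  set S := univ.filter fun e : E => ψ (fun e' _ => (Pi.single e 1 : E → ZMod 2) e') x ≠ x with hS
  obtain ⟨χ, hχ⟩ := supp_half (A := (suppSt ψ ψ0 ψ_add x).dualAnnihilator) S
    (fun e => ((Module.Dual.eval _ _ (fun e' _ => (Pi.single e 1 : E → ZMod 2) e')).comp
      (suppSt ψ ψ0 ψ_add x).dualAnnihilator.subtype).toAddMonoidHom) fun e he => by
      by_contra! hn
      exact (mem_filter.1 he).2 ((Subspace.forall_mem_dualAnnihilator_apply_eq_zero_iff
        (suppSt ψ ψ0 ψ_add x) _).1 fun φ hφ => hn ⟨φ, hφ⟩)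
  obtain ⟨S', h1, h2⟩ : ∃ S' : Finset E, S.card ≤ 2 * S'.card ∧
      ∀ e ∈ S', χ.1 (fun e' _ => (Pi.single e 1 : E → ZMod 2) e') = 1 :=
    ⟨_, hχ, fun e he => (mem_filter.1 he).2⟩
  let ex : (S' → V) → E → V := fun u e => if h : e ∈ S' then u ⟨e, h⟩ else 0
  have h3 : (univ : Finset (S' → V)).card ≤ (X.biUnion fun y =>
      univ.filter (· ∈ (suppSt ψ ψ0 ψ_add y).dualAnnihilator)).card := by
    refine card_le_card_of_injOn (fun u => χ.1.comp (suppSh (ex u))) (fun u _ => ?_)
      fun u _ u' _ h => funext fun e => ?_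
    · refine mem_coe.2 (mem_biUnion.2 ⟨θ (ex u) x, hθ _ x hx, mem_filter.2 ⟨mem_univ _, ?_⟩⟩)
      refine (Submodule.mem_dualAnnihilator _).2 fun h hh => ?_
      exact (Submodule.mem_dualAnnihilator _).1 χ.2 _ (θ_inj (ex u) ((hc _ h x).trans hh))
    · simpa [ex] using supp_inj hV χ.1 h (h2 e.1 e.2)
  have h4 := h3.trans (card_biUnion_le_card_mul X _ X.card fun y hy => by
    have := supp_card ψ ψ0 ψ_add X hψ hy
    rwa [Nat.card_eq_fintype_card, Fintype.card_subtype] at this)
  rw [card_univ, Fintype.card_fun, Fintype.card_coe] at h4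
  calc Fintype.card V ^ S.card ≤ Fintype.card V ^ (2 * S'.card) :=
        Nat.pow_le_pow_right Fintype.card_pos h1
    _ = (Fintype.card V ^ S'.card) ^ 2 := by rw [mul_comm, pow_mul]
    _ ≤ (X.card * X.card) ^ 2 := Nat.pow_le_pow_left h4 2
    _ = X.card ^ 4 := by ring

end Pool.Agent.Lib.MP_7836d5_lc.CPT
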