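import Pool.Agent.Lib.MP_7836d5_lc.CPT.Sys
import Pool.Agent.Lib.MP_7836d5_lc.CPT.Supp
import Pool.Agent.Lib.MP_7836d5_lc.CPT.Lift
import Pool.Agent.Lib.MP_7836d5_lc.LP.TMc
import Pool.Agent.Lib.MP_7836d5_lc.LP.TMs

set_option autoImplicit false
set_option linter.unusedSectionVars false

/-! The two machines attached to a complex. -/

namespace Pool.Agent.Lib.MP_7836d5_lc.CPT

open Finset LP

/-- for each of the six faces of a cube: frames on its four edges and a bit -/
abbrev Dom (V : Type) : Type := Fin 6 → (Fin 4 → V) × ZMod 2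

variable {l m : ℕ} {E Fa V : Type} [Fintype E] [DecidableEq E] [Fintype Fa] [AddCommGroup V]
  [Fintype V] (X : Cx l E Fa (Fin (m + 1)))

/-- the part of a global choice of frames and bits seen by a cube -/
def Cx.loc (τ : Fin (m + 1)) (F : E → V) (a : Fa → ZMod 2) : Dom V :=
  fun j => (fun r => F (X.bd (X.fc τ j) r), a (X.fc τ j))

/-- consistency of the values of two cubes -/
def Cx.con (u : Fin (m + 1)) (β : Dom V) (v : Fin (m + 1)) (α : Dom V) : Prop :=
  ∃ F a, β = X.loc u F a ∧ α = X.loc v F a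

open Classical in
/-- the allowed values of a cube -/
noncomputable def Cx.val (c : Fin (m + 1) → ZMod 2) (q : Fin (m + 1) × Dom V) : Bool :=
  decide (∃ F a, q.2 = X.loc q.1 F a ∧ ∑ j, a (X.fc q.1 j) = c q.1)

variable (V) in
/-- the machine with the twist `c` as a structure -/
noncomputable def Cx.RR (c : Fin (m + 1) → ZMod 2) : Voc → ℕ → ℕ → ℕ → ℕ → Prop :=
  mR X.con (X.val (V := V) c)

/-- `mach_complete` with the values `X.loc v 0 0`, and `halts_mapT`. -/
theorem Cx.halts_zero {k : ℕ} (hk : (m + 1) * (m + 2) ≤ k) :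
    Halts (eQ m (Dom V) (some (Sum.inl 0))) (eQ m (Dom V) none) (eG m (Dom V) none) k
      (mT X.con (X.val 0)) := by
  refine (halts_mapT (eQ m (Dom V)).toEmbedding (eG m (Dom V)).toEmbedding _ _ _ k _).2
    (mach_complete _ _ (fun v => X.loc v 0 0) (fun v => ?_) (fun u v _ => ⟨0, 0, rfl, rfl⟩) hk)
  simp only [Cx.val, decide_eq_true_eq]
  exact ⟨0, 0, rfl, by simp⟩

/-- `halts_mapT`, `mach_sound`; the bits glue to a global `a` (if `X.fc u j = X.fc v j'` then
`(α u j).2 = (α v j').2`, by `con` for `u ≠ v` and by `val` for `u = v`), against `X.nc`. -/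
theorem Cx.not_halts (k : ℕ) :
    ¬ Halts (eQ m (Dom V) (some (Sum.inl 0))) (eQ m (Dom V) none) (eG m (Dom V) none) k
      (mT X.con (X.val X.c)) := by
  intro h
  have : Nonempty (Dom V) := ⟨0⟩
  obtain ⟨α, h1, h2⟩ := mach_sound _ _
    ((halts_mapT (eQ m (Dom V)).toEmbedding (eG m (Dom V)).toEmbedding _ _ _ k _).1 h)
  simp only [Cx.val, decide_eq_true_eq] at h1
  have h3 : ∀ u j v j', X.fc u j = X.fc v j' → (α u j).2 = (α v j').2 := fun u j v j' e => by
    rcases lt_trichotomy u v with l | rfl | l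
    · obtain ⟨F, a, k1, k2⟩ := h2 u v l
      rw [k1, k2]
      exact congrArg a e
    · obtain ⟨F, a, k1, -⟩ := h1 u
      rw [k1]
      exact congrArg a e
    · obtain ⟨F, a, k1, k2⟩ := h2 v u l
      rw [k1, k2]
      exact congrArg a e
  classical
  obtain ⟨τ, hτ⟩ := X.nc fun t => if h : ∃ p : Fin (m + 1) × Fin 6, X.fc p.1 p.2 = t then
    (α h.choose.1 h.choose.2).2 else 0
  obtain ⟨F, a, k1, k2⟩ := h1 τ
  refine hτ (Eq.trans (sum_congr rfl fun j _ => ?_) k2)
  have k3 : ∃ p : Fin (m + 1) × Fin 6, X.fc p.1 p.2 = X.fc τ j := ⟨(τ, j), rfl⟩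
  rw [dif_pos k3, h3 _ _ _ _ k3.choose_spec, k1]
  rfl

/-- add a function of the frames to the bits -/
def inst_fib (κ : Fin 6 → (Fin 4 → V) → ZMod 2) : Equiv.Perm (Dom V) where
  toFun α j := ((α j).1, (α j).2 + κ j (α j).1)
  invFun α j := ((α j).1, (α j).2 - κ j (α j).1)
  left_inv _ := funext fun _ => Prod.ext rfl (add_sub_cancel_right _ _)
  right_inv _ := funext fun _ => Prod.ext rfl (sub_add_cancel _ _)

theorem inst_fib_add (κ κ' : Fin 6 → (Fin 4 → V) → ZMod 2) :
    inst_fib (κ + κ') = inst_fib κ * inst_fib κ' :=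
  Equiv.ext fun α => funext fun j => Prod.ext rfl (by
    change (α j).2 + (κ j (α j).1 + κ' j (α j).1) = (α j).2 + κ' j (α j).1 + κ j (α j).1
    ring)

theorem inst_fib_fix {κ : Fin 6 → (Fin 4 → V) → ZMod 2} {α : Dom V} :
    inst_fib κ α = α ↔ ∀ j, κ j (α j).1 = 0 :=
  ⟨fun h j => add_eq_left.1 (congrArg Prod.snd (congrFun h j)),
    fun h => funext fun j => Prod.ext rfl (add_eq_left.2 (h j))⟩

theorem inst_iso (u : E → V) (b : (E → V) → Fa → ZMod 2) {g : Fin (m + 1) → Equiv.Perm (Dom V)}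
    (hg : ∀ v F a, g v (X.loc v F a) = X.loc v (F + u) (a + b F)) {c c' : Fin (m + 1) → ZMod 2}
    {P : ℕ → Prop} (hp : ∀ v α, P (eA m (Dom V) (Sum.inr (some (v, α)))) →
      ∀ F, c' v = c v + ∑ j, b F (X.fc v j)) : Iso (lift g) P (X.RR V c) (X.RR V c') := by
  have hg' : ∀ v F a, X.loc v F a = g v (X.loc v (F - u) (a - b (F - u))) := fun v F a => by
    rw [hg, sub_add_cancel, sub_add_cancel]
  refine lift_iso (fun w β v α => ⟨?_, ?_⟩) fun v α h => ?_
  · rintro ⟨F, a, h1, h2⟩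
    exact ⟨_, _, (g w).injective (h1.trans (hg' w F a)), (g v).injective (h2.trans (hg' v F a))⟩
  · rintro ⟨F, a, rfl, rfl⟩
    exact ⟨_, _, hg w F a, hg v F a⟩
  · rw [Bool.eq_iff_iff]
    simp only [Cx.val, decide_eq_true_eq]
    constructor
    · rintro ⟨F, a, h1, h2⟩
      refine ⟨_, _, (g v).injective (h1.trans (hg' v F a)), ?_⟩
      simp only [Pi.sub_apply, sum_sub_distrib]
      rw [h2, hp v α h (F - u), add_sub_cancel_right]
    · rintro ⟨F, a, h1, h2⟩
      refine ⟨_, _, (congrArg (g v) h1).trans (hg v F a), ?_⟩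
      simp only [Pi.add_apply, sum_add_distrib]
      rw [h2, hp v α h F]

variable (V) in
/-- the shift of the bits -/
noncomputable def inst_φ (a : Fa → ZMod 2) : Equiv.Perm (Fin (NN m (Dom V))) :=
  lift fun v => inst_fib fun j _ => a (X.fc v j)

/-- the shift of the bits by functions of the frames -/
noncomputable def inst_ψ (h : E → V → ZMod 2) : Equiv.Perm (Fin (NN m (Dom V))) :=
  lift fun v => inst_fib fun j f => ∑ r, h (X.bd (X.fc v j) r) (f r)

/-- the shift of the frames -/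
noncomputable def inst_θ (u : E → V) : Equiv.Perm (Fin (NN m (Dom V))) :=
  lift fun v => Equiv.addRight fun j => (fun r => u (X.bd (X.fc v j) r), 0)

/-- the coboundary -/
def inst_δ : (E → ZMod 2) →+ (Fa → ZMod 2) :=
  AddMonoidHom.mk' (fun z t => ∑ r, z (X.bd t r)) fun _ _ => funext fun _ => sum_add_distrib

theorem inst_ψ_add (h h' : E → V → ZMod 2) : inst_ψ X (h + h') = inst_ψ X h * inst_ψ X h' := by
  refine Eq.trans (congrArg lift (funext fun v => ?_)) (lift_mul _ _)
  refine Eq.trans (congrArg inst_fib ?_) (inst_fib_add _ _)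
  exact funext fun j => funext fun f => sum_add_distrib

theorem inst_ψ_iso (h : E → V → ZMod 2) :
    Iso (inst_ψ X h) (fun _ => True) (X.RR V 0) (X.RR V 0) :=
  inst_iso X 0 (fun F => inst_δ X fun e => h e (F e)) (fun v F a => by rw [add_zero]; rfl)
    fun v _ _ F => ((zero_add _).trans (X.dd (fun e => h e (F e)) v)).symm

theorem inst_θ_iso (u : E → V) : Iso (inst_θ X u) (fun _ => True) (X.RR V 0) (X.RR V 0) :=
  inst_iso X u 0 (fun _ _ _ => rfl) fun _ _ _ _ => by simp

theorem inst_comm (u : E → V) (h : E → V → ZMod 2) :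
    inst_θ X u * inst_ψ X (fun e y => h e (y + u e)) = inst_ψ X h * inst_θ X u := by
  refine (lift_mul _ _).symm.trans (Eq.trans (congrArg lift (funext fun v => ?_)) (lift_mul _ _))
  refine Equiv.ext fun α => funext fun j => Prod.ext rfl ?_
  exact add_right_comm (α j).2 _ 0

theorem inst_zero {S : Finset E} {w : E → ZMod 2} {t : Fa} (hw : ∀ e ∈ S, w e = 0)
    (ht : ∀ e ∉ S, inst_δ X (Pi.single e 1) t = 0) : inst_δ X w t = 0 := by
  rw [← univ_sum_single w, map_sum, Finset.sum_apply]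
  refine sum_eq_zero fun e _ => ?_
  by_cases he : e ∈ S
  · rw [hw e he, Pi.single_zero, map_zero, Pi.zero_apply]
  · rcases (by decide : ∀ y : ZMod 2, y = 0 ∨ y = 1) (w e) with k | k
    · rw [k, Pi.single_zero, map_zero, Pi.zero_apply]
    · rw [k, ht e he]

/-- the shifts that are invisible over `S` -/
def inst_K (S : Finset E) : AddSubgroup (Fa → ZMod 2) where
  carrier := {b | ∃ w, (∀ e ∈ S, w e = 0) ∧ ∀ t, X.Yf S t → b t = inst_δ X w t}
  zero_mem' := ⟨0, fun _ _ => rfl, fun t _ => by rw [map_zero]⟩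
  add_mem' := by
    rintro a b ⟨w, h1, h2⟩ ⟨w', h3, h4⟩
    exact ⟨w + w', fun e he => by rw [Pi.add_apply, h1 e he, h3 e he, add_zero],
      fun t ht => by rw [map_add, Pi.add_apply, Pi.add_apply, h2 t ht, h4 t ht]⟩
  neg_mem' := by
    rintro a ⟨w, h1, h2⟩
    exact ⟨-w, fun e he => by rw [Pi.neg_apply, h1 e he, neg_zero],
      fun t ht => by rw [map_neg, Pi.neg_apply, Pi.neg_apply, h2 t ht]⟩

variable (V) in
/-- the system of local solutions -/
noncomputable def inst_sys : Sys (NN m (Dom V)) l E (Fa → ZMod 2) where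
  φ := inst_φ V X
  φ_add a b := Eq.trans (congrArg lift (funext fun v => inst_fib_add
    (fun j _ => a (X.fc v j)) fun j _ => b (X.fc v j))) (lift_mul _ _)
  δ := inst_δ X
  A S a := ∀ τ, X.Yc S τ → ∑ j, a (X.fc τ j) = X.c τ
  K := inst_K X
  A_mono h ha τ hτ := ha τ (X.Yc_mono h hτ)
  K_mono h := fun ⟨w, h1, h2⟩ => ⟨w, fun e he => h1 e (h he), fun t ht => h2 t (X.Yf_mono h ht)⟩
  A_shift z ha τ hτ := by
    simp only [Pi.add_apply, sum_add_distrib]
    rw [ha τ hτ]
    exact add_eq_left.2 (X.dd z τ)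
  A_ne := X.H3
  A_tr := fun {S a a'} h ha ha' => by
    obtain ⟨w, hw⟩ := X.H2 (b := a' - a) h fun τ hτ => by
      simp only [Pi.sub_apply, sum_sub_distrib]
      rw [ha τ hτ, ha' τ hτ, sub_self]
    refine ⟨w, 0, fun _ _ => rfl, fun t ht => ?_⟩
    rw [map_zero, ← sub_sub]
    exact sub_eq_zero.2 (hw t ht)
  K_free := fun {S z} h ⟨w, h1, h2⟩ => by
    obtain ⟨ν, h3, h4⟩ := X.H1 (z := z - w) h fun t ht => by
      simp only [Pi.sub_apply, sum_sub_distrib]
      exact sub_eq_zero.2 (h2 t ht)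
    exact ⟨ν, funext h3, fun e he => by rw [← h4 e he, Pi.sub_apply, h1 e he, sub_zero]⟩
  K_atom := fun {S b} u hu ⟨w, h1, h2⟩ => by
    rcases lift_atom u with h | ⟨v, α, h⟩
    · exact h _
    · have h3 : ∀ j, ∀ e ∉ S, inst_δ X (Pi.single e 1) (X.fc v j) = 0 := fun j e he =>
        inst_fib_fix.1 ((h _).1 (hu e he)) j
      exact (h _).2 (inst_fib_fix.2 fun j =>
        (h2 _ (X.Yf_of (h3 j))).trans (inst_zero X h1 (h3 j)))

/-- Let `fib (κ : Fin 6 → (Fin 4 → V) → ZMod 2) : Perm (Dom V)` add `κ j (α j).1` to the bit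
`(α j).2` (`fib (κ + κ') = fib κ * fib κ'`). `φ a = lift fun v => fib fun j _ => a (fc v j)`,
`ψ h = lift fun v => fib fun j f => ∑ r, h (bd (fc v j) r) (f r)`,
`θ u = lift fun v => Equiv.addRight fun j => (fun r => u (bd (fc v j) r), 0)`,
`δ z t = ∑ r, z (bd t r)`, `A S a = ∀ τ, Yc S τ → ∑ j, a (fc τ j) = c τ`,
`K S = {b | ∃ w, (∀ e ∈ S, w e = 0) ∧ ∀ t, Yf S t → b t = δ w t}`. These permutations map
`loc v F a₀` to `loc v F (a₀ + a)`, `loc v F (a₀ + δ fun e => h e (F e))`, `loc v (F + u) a₀`, which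
gives the hypotheses of `lift_iso` (each permutation is an involution, so one direction is enough).
`K_atom`: `lift_atom`, `Yf_of`, and `δ w t = ∑ e, w e * δ (Pi.single e 1) t`. Second part: if the
symbol `(v, α)` has its support in `S` then `Yf S (fc v j)` for all `j` (`lift_sym`, `Yf_of`), so
`Yc S v`. Third part: `supp_small` with `act (ψ h)`, `act (θ u)`; `ψ (fun e _ => z e) = φ (δ z)`. -/
theorem Cx.exists_sys (hV : ∀ y : V, y + y = 0) : ∃ Y : Sys (NN m (Dom V)) l E (Fa → ZMod 2),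
    (∀ z, Iso (Y.φ (Y.δ z)) (fun _ => True) (X.RR V 0) (X.RR V 0)) ∧
    (∀ S a, Y.A S a → Iso (Y.φ a) (fun x => Y.supp x ⊆ S) (X.RR V 0) (X.RR V X.c)) ∧
    ∀ B : Finset ℕ, (∀ π : Equiv.Perm (Fin (NN m (Dom V))),
      Iso π (fun _ => True) (X.RR V 0) (X.RR V 0) → ∀ x ∈ B, act π x ∈ B) →
        ∀ x ∈ B, Fintype.card V ^ (Y.supp x).card ≤ B.card ^ 4 := by
  refine ⟨inst_sys V X, fun z => inst_ψ_iso X fun e _ => z e, fun S a ha => ?_,
    fun B hB x hx => ?_⟩
  · refine inst_iso X 0 (fun _ => a) (fun v F a => by rw [add_zero]; rfl) fun v α h _ => ?_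
    refine ((zero_add _).trans (ha v (X.Yc_of fun j => X.Yf_of fun e he => ?_))).symm
    have h1 : act (inst_φ V X (inst_δ X (Pi.single e 1)))
        (eA m (Dom V) (Sum.inr (some (v, α)))) = eA m (Dom V) (Sum.inr (some (v, α))) :=
      not_not.1 fun k => he (h (mem_filter.2 ⟨mem_univ _, k⟩))
    rw [act_atom (Fin.is_lt _)] at h1
    exact inst_fib_fix.1 ((lift_sym _ v α).1 (Fin.ext h1)) j
  · refine supp_small hV (fun h => act (inst_ψ X h)) (fun u => act (inst_θ X u)) (fun y => ?_)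
      (fun h h' y => ?_) (fun u => act_injective _) (fun u h y => ?_) B
      (fun h => hB _ (inst_ψ_iso X h)) (fun u => hB _ (inst_θ_iso X u)) hx
    · have h1 := inst_ψ_add (V := V) X 0 0
      rw [add_zero, left_eq_mul] at h1
      simp only [h1, act_one]
    · simp only [inst_ψ_add, act_mul]
    · simp only [← act_mul, inst_comm]

end Pool.Agent.Lib.MP_7836d5_lc.CPT
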