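import Pool.Agent.Lib.MP_7836d5_lc.CPT.Sys

set_option autoImplicit false

/-! The cubical three-dimensional torus. -/

namespace Pool.Agent.Lib.MP_7836d5_lc.CPT

open Finset

/-- A linear section of `u ↦ (p ↦ u p + u (p + 1))` over a proper subset `P` of the cycle that only
looks at the values on `P`. With `m ∉ P` take
`σ g p = ∑ i ∈ range (p - m - 1).val, if m + 1 + i ∈ P then g (m + 1 + i) else 0`. -/
theorem exists_sec {l : ℕ} [NeZero l] (P : Finset (ZMod l)) (hP : P.card < l) :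
    ∃ σ : (ZMod l → ZMod 2) →+ (ZMod l → ZMod 2), (∀ g, ∀ p ∈ P, σ g p + σ g (p + 1) = g p) ∧
      ∀ g, (∀ p ∈ P, g p = 0) → σ g = 0 := by
  obtain ⟨m, hm⟩ : ∃ m, m ∉ P := by
    by_contra h
    push Not at h
    rw [eq_univ_of_forall h, card_univ, ZMod.card] at hP
    exact lt_irrefl _ hP
  refine ⟨⟨⟨fun g p => ∑ i ∈ range (p - m - 1).val, if m + 1 + i ∈ P then g (m + 1 + i) else 0,
    ?_⟩, fun g g' => ?_⟩, fun g p hp => ?_, fun g hg => ?_⟩
  · funext p
    simp
  · funext p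
    simp only [Pi.add_apply, ← sum_add_distrib, ite_add_ite, add_zero]
  · have h1 : (p - m - 1).val + 1 < l := by
      refine lt_of_le_of_ne (ZMod.val_lt _) fun h => hm ?_
      have h2 : (((p - m - 1).val + 1 : ℕ) : ZMod l) = 0 := by rw [h, ZMod.natCast_self]
      rw [Nat.cast_succ, ZMod.natCast_zmod_val, sub_add_cancel, sub_eq_zero] at h2
      exact h2 ▸ hp
    have h2 : (p + 1 - m - 1).val = (p - m - 1).val + 1 := by
      rw [← ZMod.val_cast_of_lt h1, Nat.cast_succ, ZMod.natCast_zmod_val]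
      congr 1
      ring
    have h3 : m + 1 + (p - m - 1) = p := by ring
    show (∑ i ∈ range (p - m - 1).val, _) + (∑ i ∈ range (p + 1 - m - 1).val, _) = _
    rw [h2, sum_range_succ, ← add_assoc, CharTwo.add_self_eq_zero, zero_add, ZMod.natCast_zmod_val,
      h3, if_pos hp]
  · funext p
    show ∑ i ∈ range (p - m - 1).val, (if m + 1 + i ∈ P then g (m + 1 + i) else 0) = 0
    refine sum_eq_zero fun i _ => ?_
    split_ifs with h
    · exact hg _ h
    · rfl

/-- The difference operator in direction `i`. -/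
def torusD {l : ℕ} (i : Fin 3) :
    ((Fin 3 → ZMod l) → ZMod 2) →+ ((Fin 3 → ZMod l) → ZMod 2) where
  toFun u x := u x + u (x + Pi.single i 1)
  map_zero' := funext fun _ => add_zero _
  map_add' _ _ := funext fun _ => add_add_add_comm _ _ _ _

section

variable {l : ℕ} {P : Fin 3 → Finset (ZMod l)}

theorem torus_comm (i j : Fin 3) (u : (Fin 3 → ZMod l) → ZMod 2) :
    torusD i (torusD j u) = torusD j (torusD i u) := by
  funext x
  show u x + u (x + _) + (u (x + _) + u (x + _ + _)) = u x + u (x + _) + (u (x + _) + u (x + _ + _))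
  rw [add_right_comm x, add_add_add_comm]

theorem torus_loc {i j : Fin 3} {f g : (Fin 3 → ZMod l) → ZMod 2}
    (h : ∀ y, y i ∈ P i → f y = g y) (hj : i ≠ j) {y : Fin 3 → ZMod l} (hy : y i ∈ P i) :
    torusD j f y = torusD j g y := by
  show f y + f (y + _) = g y + g (y + _)
  rw [h y hy, h _ (by rwa [Pi.add_apply, Pi.single_eq_of_ne hj, add_zero])]

theorem torus_sum [NeZero l] (i : Fin 3) (u : (Fin 3 → ZMod l) → ZMod 2) :
    ∑ x, torusD i u x = 0 := by
  show ∑ x, (u x + u (Equiv.addRight (Pi.single i 1) x)) = 0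
  rw [sum_add_distrib, Equiv.sum_comp, CharTwo.add_self_eq_zero]

theorem torus_sec [NeZero l] (hP : ∀ i, (P i).card < l) :
    ∃ σ : Fin 3 → ((Fin 3 → ZMod l) → ZMod 2) →+ ((Fin 3 → ZMod l) → ZMod 2),
      (∀ i g x, x i ∈ P i → torusD i (σ i g) x = g x) ∧
      (∀ i j g, i ≠ j → torusD j (σ i g) = σ i (torusD j g)) ∧
      ∀ i g x, (∀ y, y i ∈ P i → (∀ j ≠ i, y j = x j) → g y = 0) → σ i g x = 0 := by
  choose s h1 h2 using fun i => exists_sec (P i) (hP i)
  refine ⟨fun i => ⟨⟨fun g x => s i (fun q => g (Function.update x i q)) (x i),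
    funext fun x => congrFun (map_zero (s i)) _⟩,
    fun g g' => funext fun x => congrFun (map_add (s i) _ _) _⟩,
    fun i g x hx => ?_, fun i j g hj => funext fun x => ?_, fun i g x h => ?_⟩
  · have e : ∀ q, Function.update (x + Pi.single i 1) i q = Function.update x i q := fun q => by
      funext j
      rcases eq_or_ne j i with rfl | hj
      · simp
      · simp [hj]
    show s i _ (x i) + s i (fun q => g (Function.update (x + Pi.single i 1) i q))
      (x i + (Pi.single i 1 : Fin 3 → ZMod l) i) = _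
    simp only [e]
    rw [Pi.single_eq_same, h1 i _ _ hx, Function.update_eq_self]
  · have e : ∀ q, Function.update (x + Pi.single j 1) i q =
        Function.update x i q + Pi.single j 1 := fun q => by
      funext k
      rcases eq_or_ne k i with rfl | hk
      · simp [hj]
      · simp [hk]
    show s i _ (x i) + s i (fun q => g (Function.update (x + Pi.single j 1) i q))
      (x i + (Pi.single j 1 : Fin 3 → ZMod l) i) = _
    simp only [e]
    rw [Pi.single_eq_of_ne hj, add_zero]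
    exact (congrFun (map_add (s i) _ _) _).symm
  · exact congrFun (h2 i _ fun q hq => h _ (by rwa [Function.update_self])
      fun j hj => Function.update_of_ne hj _ _) _

theorem torus_H2 [NeZero l] (hP : ∀ i, (P i).card < l) (b : Fin 3 → (Fin 3 → ZMod l) → ZMod 2)
    (hb : ∀ x, (∀ j, x j ∈ P j) → torusD 0 (b 0) x + torusD 1 (b 1) x + torusD 2 (b 2) x = 0) :
    ∃ w : Fin 3 → (Fin 3 → ZMod l) → ZMod 2, ∀ i x, (∀ j ≠ i, x j ∈ P j) →
      b i x = torusD (i + 2) (w (i + 1)) x + torusD (i + 1) (w (i + 2)) x := by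
  obtain ⟨σ, h1, h2, h3⟩ := torus_sec hP
  refine ⟨![0, σ 0 (b 2), σ 0 (b 1) + σ 1 (b 0 + σ 0 (torusD 0 (b 0)))], fun i x hx => ?_⟩
  fin_cases i
  · have k := h3 0 (torusD 0 (b 0) + torusD 1 (b 1) + torusD 2 (b 2)) x fun y hy h =>
      hb y fun j => by
        rcases eq_or_ne j 0 with rfl | hj
        · exact hy
        · exact h j hj ▸ hx j hj
    show b 0 x = torusD 2 (σ 0 (b 2)) x +
      torusD 1 (σ 0 (b 1) + σ 1 (b 0 + σ 0 (torusD 0 (b 0)))) x
    rw [map_add, map_add] at k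
    rw [map_add, Pi.add_apply, h1 1 _ x (hx 1 (by decide)), h2 0 2 _ (by decide),
      h2 0 1 _ (by decide)]
    simp only [Pi.add_apply] at k ⊢
    linear_combination -k
  · show b 1 x = torusD 0 (σ 0 (b 1) + σ 1 (b 0 + σ 0 (torusD 0 (b 0)))) x + torusD 2 0 x
    rw [map_add, Pi.add_apply, h1 0 _ x (hx 0 (by decide)), h2 1 0 _ (by decide), map_zero,
      h3 1 _ x fun y _ h => ?_, add_zero, Pi.zero_apply, add_zero]
    rw [map_add, Pi.add_apply, h1 0 _ y (h 0 (by decide) ▸ hx 0 (by decide)),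
      CharTwo.add_self_eq_zero]
  · show b 2 x = torusD 1 0 x + torusD 0 (σ 0 (b 2)) x
    rw [map_zero, Pi.zero_apply, zero_add, h1 0 _ x (hx 0 (by decide))]

theorem torus_H1 [NeZero l] (hP : ∀ i, (P i).card < l) (z : Fin 3 → (Fin 3 → ZMod l) → ZMod 2)
    (h0 : ∀ x, x 1 ∈ P 1 → x 2 ∈ P 2 → torusD 2 (z 1) x + torusD 1 (z 2) x = 0)
    (h1 : ∀ x, x 2 ∈ P 2 → x 0 ∈ P 0 → torusD 0 (z 2) x + torusD 2 (z 0) x = 0)
    (h2 : ∀ x, x 0 ∈ P 0 → x 1 ∈ P 1 → torusD 1 (z 0) x + torusD 0 (z 1) x = 0) :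
    ∃ u : (Fin 3 → ZMod l) → ZMod 2, ∀ i x, x i ∈ P i → z i x = torusD i u x := by
  obtain ⟨σ, s1, s2, s3⟩ := torus_sec hP
  have two : (2 : ZMod 2) = 0 := rfl
  obtain ⟨r, hr⟩ : ∃ r, r = z 1 + torusD 1 (σ 0 (z 0)) := ⟨_, rfl⟩
  obtain ⟨t, ht⟩ : ∃ t, t = z 2 + torusD 2 (σ 0 (z 0)) + torusD 2 (σ 1 r) := ⟨_, rfl⟩
  have k1 : ∀ y, y 0 ∈ P 0 → σ 1 (torusD 0 r) y = (0 : (Fin 3 → ZMod l) → ZMod 2) y := fun y hy =>
    s3 1 _ y fun y' hy' h => by
      have hy0 : y' 0 ∈ P 0 := h 0 (by decide) ▸ hy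
      rw [hr, map_add, Pi.add_apply, torus_comm, torus_loc (s1 0 _) (by decide) hy0, add_comm]
      exact h2 y' hy0 hy'
  refine ⟨σ 0 (z 0) + σ 1 r + σ 2 t, fun i x hx => ?_⟩
  rw [map_add, map_add, Pi.add_apply, Pi.add_apply]
  fin_cases i
  · show z 0 x = torusD 0 _ x + torusD 0 _ x + torusD 0 _ x
    rw [s1 0 _ x hx, s2 1 0 _ (by decide), k1 x hx, s2 2 0 _ (by decide),
      s3 2 _ x fun y hy h => ?_, Pi.zero_apply, add_zero, add_zero]
    have hy0 : y 0 ∈ P 0 := h 0 (by decide) ▸ hx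
    rw [ht, map_add, map_add, Pi.add_apply, Pi.add_apply, torus_comm, torus_comm 0,
      torus_loc (s1 0 _) (by decide) hy0, s2 1 0 _ (by decide), torus_loc k1 (by decide) hy0,
      map_zero, Pi.zero_apply, add_zero]
    exact h1 y hy hy0
  · show z 1 x = torusD 1 _ x + torusD 1 _ x + torusD 1 _ x
    rw [s1 1 _ x hx, s2 2 1 _ (by decide), s3 2 _ x fun y hy h => ?_, hr, Pi.add_apply]
    · linear_combination (-torusD 1 (σ 0 (z 0)) x) * two
    have hy1 : y 1 ∈ P 1 := h 1 (by decide) ▸ hx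
    rw [ht, map_add, map_add, Pi.add_apply, Pi.add_apply, torus_comm 1 2 (σ 1 r),
      torus_loc (s1 1 _) (by decide) hy1, hr, map_add, Pi.add_apply, torus_comm 2 1]
    linear_combination h0 y hy1 hy + torusD 1 (torusD 2 (σ 0 (z 0))) y * two
  · show z 2 x = torusD 2 _ x + torusD 2 _ x + torusD 2 _ x
    rw [s1 2 _ x hx, ht, Pi.add_apply, Pi.add_apply]
    linear_combination (-torusD 2 (σ 0 (z 0)) x - torusD 2 (σ 1 r) x) * two

/-- The four edges of a face. -/
def torusB (t : Fin 3 × (Fin 3 → ZMod l)) : Fin 4 → Fin 3 × (Fin 3 → ZMod l) :=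
  ![(t.1 + 1, t.2), (t.1 + 1, t.2 + Pi.single (t.1 + 2) 1), (t.1 + 2, t.2),
    (t.1 + 2, t.2 + Pi.single (t.1 + 1) 1)]

/-- The six faces of a cube. -/
def torusF (x : Fin 3 → ZMod l) : Fin 6 → Fin 3 × (Fin 3 → ZMod l) :=
  ![(0, x), (0, x + Pi.single 0 1), (1, x), (1, x + Pi.single 1 1), (2, x), (2, x + Pi.single 2 1)]

theorem torus_B (z : Fin 3 × (Fin 3 → ZMod l) → ZMod 2) (i : Fin 3) (x : Fin 3 → ZMod l) :
    ∑ r, z (torusB (i, x) r) =
      torusD (i + 2) (fun y => z (i + 1, y)) x + torusD (i + 1) (fun y => z (i + 2, y)) x := by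
  rw [Fin.sum_univ_four, add_assoc]
  rfl

theorem torus_F (b : Fin 3 × (Fin 3 → ZMod l) → ZMod 2) (x : Fin 3 → ZMod l) :
    ∑ j, b (torusF x j) = torusD 0 (fun y => b (0, y)) x + torusD 1 (fun y => b (1, y)) x +
      torusD 2 (fun y => b (2, y)) x := by
  rw [Fin.sum_univ_six, add_assoc, add_assoc (_ + _) (b (torusF x 2))]
  rfl

theorem torus_dd (z : Fin 3 × (Fin 3 → ZMod l) → ZMod 2) (x : Fin 3 → ZMod l) :
    ∑ j, ∑ r, z (torusB (torusF x j) r) = 0 := by
  have two : (2 : ZMod 2) = 0 := rfl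
  rw [torus_F fun t => ∑ r, z (torusB t r)]
  simp only [torus_B]
  show torusD 0 ((torusD 2 fun y => z (1, y)) + torusD 1 fun y => z (2, y)) x +
    torusD 1 ((torusD 0 fun y => z (2, y)) + torusD 2 fun y => z (0, y)) x +
    torusD 2 ((torusD 1 fun y => z (0, y)) + torusD 0 fun y => z (1, y)) x = 0
  simp only [map_add, Pi.add_apply]
  rw [torus_comm 1 0, torus_comm 2 0, torus_comm 2 1]
  linear_combination (torusD 0 (torusD 2 fun y => z (1, y)) x +
    torusD 0 (torusD 1 fun y => z (2, y)) x + torusD 1 (torusD 2 fun y => z (0, y)) x) * two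

theorem torus_one [Fact (1 < l)] (i j : Fin 3) (x : Fin 3 → ZMod l) :
    torusD j (fun y => (Pi.single (i, x) 1 : _ → ZMod 2) (i, y)) x = 1 := by
  have h : x + Pi.single j 1 ≠ x := fun h => by simpa using congrFun h j
  show (Pi.single (i, x) 1 : _ → ZMod 2) (i, x) + (Pi.single (i, x) 1 : _ → ZMod 2) (i, _) = 1
  rw [Pi.single_eq_same, Pi.single_eq_of_ne fun e => h (congrArg Prod.snd e), add_zero]

theorem torus_zero {i k : Fin 3} (h : k ≠ i) (j : Fin 3) (x : Fin 3 → ZMod l) :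
    torusD j (fun y => (Pi.single (i, x) 1 : _ → ZMod 2) (k, y)) x = 0 := by
  show (Pi.single (i, x) 1 : _ → ZMod 2) (k, x) + (Pi.single (i, x) 1 : _ → ZMod 2) (k, _) = 0
  rw [Pi.single_eq_of_ne fun e => h (congrArg Prod.fst e),
    Pi.single_eq_of_ne fun e => h (congrArg Prod.fst e), add_zero]

end

/-- Points `x : T = Fin 3 → ZMod l`, `e i = Pi.single i 1`. Edges `(i, x)` (direction `i`), faces
`(i, x)` (normal `i`), cubes `x` (numbered by an equivalence with `Fin (m + 1)`).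
`bd (i, x) = ![(i+1, x), (i+1, x + e (i+2)), (i+2, x), (i+2, x + e (i+1))]`,
`fc x = ![(0, x), (0, x + e 0), (1, x), (1, x + e 1), (2, x), (2, x + e 2)]`, `c = Pi.single 0 1`
(`nc`: sum over all cubes, every face occurs twice).
`P S i = {x i | (j, x) ∈ S}` has at most `card S < l` elements, `Yf S (i, x) = ∀ j ≠ i, x j ∈ P S j`,
`Yc S x = ∀ j, x j ∈ P S j`. With `D i u x = u x + u (x + e i)` and
`σ i g x = σ_{P S i} (fun q => g (update x i q)) (x i)`: `D i (σ i g) x = g x` if `x i ∈ P S i`;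
`σ i` commutes with `D j` for `j ≠ i`; `σ i g x = 0` if `g (update x i q) = 0` for `q ∈ P S i`.
`H3`: `a = (σ 0 c, 0, 0)`. `H2`: `w = (0, σ 0 b₂, σ 0 b₁ + σ 1 r)`, `r = b₀ + σ 0 (D 0 b₀)`.
`H1`: `ν = (D 0 u, D 1 u, D 2 u)`, `u = σ 0 z₀ + σ 1 r₁ + σ 2 r₂`, `r₁ = z₁ + D 1 (σ 0 z₀)`,
`r₂ = z₂ + D 2 (σ 0 z₀) + D 2 (σ 1 r₁)`. -/
theorem exists_cx (l : ℕ) (hl : 2 ≤ l) : ∃ (E Fa : Type) (_ : Fintype E) (_ : DecidableEq E)
    (_ : Fintype Fa) (m : ℕ), Nonempty (Cx l E Fa (Fin (m + 1))) := by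
  have : NeZero l := ⟨by omega⟩
  have : Fact (1 < l) := ⟨hl⟩
  obtain ⟨m, hm⟩ := Nat.exists_eq_succ_of_ne_zero (Fintype.card_ne_zero (α := Fin 3 → ZMod l))
  let κ : Fin (m + 1) ≃ (Fin 3 → ZMod l) := (Fintype.equivFinOfCardEq hm).symm
  let P : Finset (Fin 3 × (Fin 3 → ZMod l)) → Fin 3 → Finset (ZMod l) :=
    fun S i => S.image fun e => e.2 i
  have hP : ∀ {S}, S.card < l → ∀ i, (P S i).card < l := fun h _ => card_image_le.trans_lt h
  have h12 : ∀ i : Fin 3, i + 2 ≠ i + 1 := by decide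
  have h3 : ∀ i j : Fin 3, j ≠ i → j = i + 1 ∨ j = i + 2 := by decide
  refine ⟨Fin 3 × (Fin 3 → ZMod l), Fin 3 × (Fin 3 → ZMod l), inferInstance, inferInstance,
    inferInstance, m, ⟨⟨torusB, fun τ => torusF (κ τ), Pi.single 0 1,
      fun S t => ∀ j ≠ t.1, t.2 j ∈ P S j, fun S τ => ∀ j, κ τ j ∈ P S j,
      fun z τ => torus_dd z _, fun a => ?_, fun h ht j hj => image_subset_image h (ht j hj),
      fun h ht j => image_subset_image h (ht j), ?_, fun h j => ?_, fun hS => ?_,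
      fun {S b} hS hb => ?_, fun {S z} hS hz => ?_⟩⟩⟩
  · by_contra h
    push Not at h
    have h1 := sum_congr rfl fun τ (_ : τ ∈ univ) => h τ
    rw [κ.sum_comp fun x => ∑ j, a (torusF x j)] at h1
    simp only [torus_F, sum_add_distrib, torus_sum] at h1
    simp at h1
  · rintro S ⟨i, x⟩ h j hj
    refine mem_image_of_mem (fun e => e.2 j) (a := (j, x)) (by_contra fun hn => ?_)
    have h1 := h _ hn
    rw [torus_B] at h1
    rcases h3 i j hj with rfl | rfl
    · rw [torus_one, torus_zero (h12 i)] at h1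
      exact absurd h1 (by decide)
    · rw [torus_one, torus_zero (h12 i).symm] at h1
      exact absurd h1 (by decide)
  · rcases eq_or_ne j 0 with rfl | hj
    · exact h 2 0 (show (0 : Fin 3) ≠ 1 by decide)
    · exact h 0 j hj
  · obtain ⟨σ, h1, -⟩ := torus_sec (hP hS)
    refine ⟨fun t => if t.1 = 0 then σ 0 (fun x => (Pi.single 0 1 : _ → ZMod 2) (κ.symm x)) t.2
      else 0, fun τ hτ => ?_⟩
    refine (torus_F (fun t => if t.1 = 0 then σ 0 _ t.2 else 0) _).trans ?_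
    show torusD 0 (σ 0 _) _ + torusD 1 0 _ + torusD 2 0 _ = _
    rw [h1 0 _ _ (hτ 0), map_zero, map_zero, Pi.zero_apply, add_zero, add_zero, κ.symm_apply_apply]
  · obtain ⟨w, hw⟩ := torus_H2 (hP hS) (fun i x => b (i, x)) fun x hx => by
      have h := hb (κ.symm x) (by simpa only [κ.apply_symm_apply] using hx)
      rwa [κ.apply_symm_apply, torus_F] at h
    exact ⟨fun e => w e.1 e.2, fun t ht =>
      (hw t.1 t.2 ht).trans (torus_B (fun e => w e.1 e.2) _ _).symm⟩
  · have h4 : ∀ i x, x (i + 1) ∈ P S (i + 1) → x (i + 2) ∈ P S (i + 2) →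
        torusD (i + 2) (fun y => z (i + 1, y)) x + torusD (i + 1) (fun y => z (i + 2, y)) x = 0 :=
      fun i x h1 h2 => (torus_B z i x).symm.trans (hz (i, x) fun j hj => by
        rcases h3 i j hj with rfl | rfl
        exacts [h1, h2])
    obtain ⟨u, hu⟩ := torus_H1 (hP hS) (fun i x => z (i, x)) (h4 0) (h4 1) (h4 2)
    refine ⟨fun e => torusD e.1 u e.2, fun t => ?_,
      fun e he => hu e.1 e.2 (mem_image_of_mem (fun e' => e'.2 e.1) he)⟩
    refine (torus_B (fun e => torusD e.1 u e.2) t.1 t.2).trans ?_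
    show torusD (t.1 + 2) (torusD (t.1 + 1) u) _ + torusD (t.1 + 1) (torusD (t.1 + 2) u) _ = 0
    rw [torus_comm, CharTwo.add_self_eq_zero]

end Pool.Agent.Lib.MP_7836d5_lc.CPT
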