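import Pool.Agent.Lib.MP_7836d5_lc.CPT.Acc
import Pool.Agent.Lib.MP_7836d5_lc.CPT.Torus
import Pool.Agent.Lib.MP_7836d5_lc.CPT.Inst

set_option autoImplicit false

/-! The lower bound. -/

namespace Pool.Agent.Lib.MP_7836d5_lc.CPT

open Finset LP

theorem final_exp {q a b : ℕ} (hq : 2 ≤ q) (h : q ^ a ≤ (q ^ b) ^ 4) : a ≤ 4 * b := by
  rw [← pow_mul, mul_comm] at h
  exact (Nat.pow_le_pow_iff_right hq).1 h

theorem not_fpt : ¬ ∃ (step halt out : Tm Voc) (x₀ T : ℕ → ℕ → ℕ) (f : ℕ → ℕ) (c : ℕ),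
    (∀ n k, Pure n (x₀ n k)) ∧
    ∀ (m m' : ℕ) (q0 qh : Fin m) (bl : Fin m') (δ : Fin m × Fin m' × Fin m × Fin m' × Bool → Bool)
      (k : ℕ), 0 < k → (Accepts step halt out (m + m') (tmRel q0 qh bl δ) (x₀ (m + m') k)
        (T (m + m') k) (f k * (m + m') ^ c) ↔ Halts q0 qh bl k δ) := by
  classical
  rintro ⟨step, halt, out, x₀, T, f, c, hp, H⟩
  set s := 4 * (25 * c + 25) with hs
  set l := 4 * ((rk step + rk halt + rk out) * s) + 2 with hl
  obtain ⟨E, Fa, _, _, _, m, ⟨X⟩⟩ := exists_cx l (by omega)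
  set k := (m + 1) * (m + 2) with hk
  have k0 : 0 < k := by positivity
  let V := Fin (f k + 130 * (m + 1) + 2) → ZMod 2
  have hV : ∀ y : V, y + y = 0 := fun y => funext fun i => CharTwo.add_self_eq_zero _
  set q := Fintype.card V with hq
  have hq1 : f k + 130 * (m + 1) + 2 < q := by
    rw [hq, Fintype.card_fun, ZMod.card, Fintype.card_fin]
    exact Nat.lt_two_pow_self
  have hD : Fintype.card (Dom V) = 64 * q ^ 24 := by
    simp only [Dom, Fintype.card_fun, Fintype.card_prod, ZMod.card, Fintype.card_fin, ← hq]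
    ring
  have hN : NN m (Dom V) ≤ q ^ 25 := by
    have h1 : 1 ≤ q ^ 24 := Nat.one_le_pow _ _ (by omega)
    rw [NN_eq, hD, pow_succ q 24]
    nlinarith
  have hM : f k * NN m (Dom V) ^ c ≤ q ^ (25 * c + 25) := by
    rw [pow_add, mul_comm, pow_mul]
    refine Nat.mul_le_mul (Nat.pow_le_pow_left hN c) ?_
    exact (show f k ≤ q by omega).trans (Nat.le_self_pow (by norm_num) q)
  obtain ⟨Y, h1, h2, h3⟩ := X.exists_sys hV
  have small : ∀ B : Finset ℕ, B.card ≤ q ^ (25 * c + 25) →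
      (∀ π : Equiv.Perm (Fin (NN m (Dom V))), Iso π (fun _ => True) (X.RR V 0) (X.RR V 0) →
        ∀ x ∈ B, act π x ∈ B) → ∀ x ∈ B, (Y.supp x).card ≤ s := fun B hB hi x hx =>
    final_exp (by omega) ((h3 B hi x hx).trans (Nat.pow_le_pow_left hB 4))
  refine X.not_halts (V := V) k ((H _ _ _ _ _ _ k k0).1 (Sys.accepts_tr h1 h2 (s := s) (hp _ _)
    (fun x hx => small (range _) ?_ (fun π _ y hy => mem_range.2 (act_lt.2 (mem_range.1 hy))) x
      (mem_range.2 hx)) (by omega) ?_ ((H _ _ _ _ _ _ k k0).2 (X.halts_zero le_rfl))))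
  · rw [card_range]
    exact hN.trans (Nat.pow_le_pow_right (by omega) (by omega))
  · intro j hj y hy
    have fin := Set.finite_of_encard_le_coe hj
    refine small fin.toFinset ?_ (fun π hπ x hx => ?_) y (fin.mem_toFinset.2 hy)
    · rw [fin.encard_eq_coe_toFinset_card, Nat.cast_le] at hj
      exact hj.trans hM
    · have := transGen_act (π := π) (fin.mem_toFinset.1 hx)
      rw [run_fix hπ _ (hp _ _)] at this
      exact fin.mem_toFinset.2 this

end Pool.Agent.Lib.MP_7836d5_lc.CPT
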