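import Pool.Agent.Lib.MP_7836d5_lc.CPT.Act

set_option autoImplicit false

/-! Systems of local solutions and the transport of objects (definitions). -/

namespace Pool.Agent.Lib.MP_7836d5_lc.CPT

open Finset

/-- The group `C` acts on the atoms; `δ` maps the central group `E → ZMod 2` to `C`; `A S` is the
set of local solutions over `S` and `K S` the group of shifts that are invisible over `S`. -/
structure Sys (n l : ℕ) (E C : Type) [Fintype E] [DecidableEq E] [AddCommGroup C] where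
  φ : C → Equiv.Perm (Fin n)
  φ_add : ∀ a b, φ (a + b) = φ a * φ b
  δ : (E → ZMod 2) →+ C
  A : Finset E → C → Prop
  K : Finset E → AddSubgroup C
  A_mono : ∀ {S S' a}, S ⊆ S' → A S' a → A S a
  K_mono : ∀ {S S' a}, S ⊆ S' → a ∈ K S' → a ∈ K S
  A_shift : ∀ {S a} z, A S a → A S (a + δ z)
  A_ne : ∀ {S}, S.card < l → ∃ a, A S a
  A_tr : ∀ {S a a'}, S.card < l → A S a → A S a' → ∃ z, a' - (a + δ z) ∈ K S
  K_free : ∀ {S z}, S.card < l → δ z ∈ K S → ∃ ν, δ ν = 0 ∧ ∀ e ∈ S, z e = ν e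
  K_atom : ∀ {S b} (u : Fin n), (∀ e ∉ S, φ (δ (Pi.single e 1)) u = u) → b ∈ K S → φ b u = u

variable {n l : ℕ} {E C : Type} [Fintype E] [DecidableEq E] [AddCommGroup C] [Fintype C]
  (Y : Sys n l E C)

/-- the central support of an object -/
noncomputable def Sys.supp (x : ℕ) : Finset E :=
  univ.filter fun e => act (Y.φ (Y.δ (Pi.single e 1))) x ≠ x

open Classical in
/-- the transport of an object along a local solution -/
noncomputable def Sys.tr (a : C) (x : ℕ) : ℕ :=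
  if h : x < n then Y.φ a ⟨x, h⟩ else
    enc n ((((el n x).attach ×ˢ (univ : Finset C)).filter fun p =>
      Y.A (Y.supp x ∪ Y.supp p.1.1) p.2 ∧ p.2 - a ∈ Y.K (Y.supp x)).image fun p => tr p.2 p.1.1)
termination_by x
decreasing_by exact lt_of_mem_el p.1.2

/-- hereditarily small support -/
def Sys.Hs (s x : ℕ) : Prop :=
  ∀ y, Relation.ReflTransGen (fun a b => a ∈ el n b) y x → (Y.supp y).card ≤ s

/-- the growth factor of supports in the evaluation of a term -/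
def rk {σ : Type} : Tm σ → ℕ
  | .var _ => 1
  | .empty => 1
  | .atoms => 1
  | .pair s t => rk s + rk t
  | .union t => rk t
  | .unique t => rk t
  | .card t => rk t
  | .comp _ s r g => (rk r + 1) * (rk s + rk g)
  | .eq s t => rk s + rk t
  | .mem s t => rk s + rk t
  | .not t => rk t
  | .and s t => rk s + rk t
  | .rel _ a b c d => rk a + rk b + rk c + rk d

/-- A complex `E → Fa → Cu` (edges, faces, cubes) with a twist `c` that is not a coboundary and a
monotone choice of acyclic subcomplexes around small sets of edges. -/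
structure Cx (l : ℕ) (E Fa Cu : Type) [DecidableEq E] where
  bd : Fa → Fin 4 → E
  fc : Cu → Fin 6 → Fa
  c : Cu → ZMod 2
  Yf : Finset E → Fa → Prop
  Yc : Finset E → Cu → Prop
  dd : ∀ (z : E → ZMod 2) τ, ∑ j, ∑ r, z (bd (fc τ j) r) = 0
  nc : ∀ a : Fa → ZMod 2, ∃ τ, ∑ j, a (fc τ j) ≠ c τ
  Yf_mono : ∀ {S S' t}, S ⊆ S' → Yf S t → Yf S' t
  Yc_mono : ∀ {S S' τ}, S ⊆ S' → Yc S τ → Yc S' τ
  Yf_of : ∀ {S t}, (∀ e ∉ S, ∑ r, (Pi.single e 1 : E → ZMod 2) (bd t r) = 0) → Yf S t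
  Yc_of : ∀ {S τ}, (∀ j, Yf S (fc τ j)) → Yc S τ
  H3 : ∀ {S}, S.card < l → ∃ a : Fa → ZMod 2, ∀ τ, Yc S τ → ∑ j, a (fc τ j) = c τ
  H2 : ∀ {S} {b : Fa → ZMod 2}, S.card < l → (∀ τ, Yc S τ → ∑ j, b (fc τ j) = 0) →
    ∃ w : E → ZMod 2, ∀ t, Yf S t → b t = ∑ r, w (bd t r)
  H1 : ∀ {S} {z : E → ZMod 2}, S.card < l → (∀ t, Yf S t → ∑ r, z (bd t r) = 0) →
    ∃ ν : E → ZMod 2, (∀ t, ∑ r, ν (bd t r) = 0) ∧ ∀ e ∈ S, z e = ν e

end Pool.Agent.Lib.MP_7836d5_lc.CPT
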