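import Pool.Agent.Lib.MP_7836d5_lc.CPT.Sys

set_option autoImplicit false
set_option linter.unusedSectionVars false

/-! The transport preserves membership, equality and cardinality. -/

namespace Pool.Agent.Lib.MP_7836d5_lc.CPT.Sys

open Finset

variable {n l : ℕ} {E C : Type} [Fintype E] [DecidableEq E] [AddCommGroup C] [Fintype C]
  {Y : Sys n l E C} {S : Finset E} {a a' : C} {x y s : ℕ}

theorem Hs.card (h : Y.Hs s x) : (Y.supp x).card ≤ s := h x .refl

theorem Hs.mem (h : Y.Hs s x) (hy : y ∈ el n x) : Y.Hs s y := fun w hw => h w (hw.tail hy)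

theorem Hs.mono {s' : ℕ} (h : Y.Hs s x) (hs : s ≤ s') : Y.Hs s' x := fun w hw => (h w hw).trans hs

theorem Hs.of (h1 : (Y.supp x).card ≤ s) (h2 : ∀ y ∈ el n x, Y.Hs s y) : Y.Hs s x := by
  intro w hw
  rcases hw.cases_tail with rfl | ⟨y, h3, h4⟩
  · exact h1
  · exact h2 y h4 w h3

theorem supp_ord (k : ℕ) : Y.supp (ord n k) = ∅ := by
  simp [supp, act_ord]

theorem hs_ord (k : ℕ) : Y.Hs s (ord n k) := by
  induction k using Nat.strong_induction_on with
  | _ k ih =>
    refine Hs.of (by simp [supp_ord]) fun y hy => ?_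
    rw [el_ord] at hy
    obtain ⟨j, hj, rfl⟩ := mem_image.1 hy
    exact ih j (mem_range.1 hj)

theorem φ_zero : Y.φ 0 = 1 := by
  have h := Y.φ_add 0 0
  rw [add_zero] at h
  exact (mul_eq_left.1 h.symm)

theorem act_add (b b' : C) : act (Y.φ (b + b')) x = act (Y.φ b) (act (Y.φ b') x) := by
  rw [Y.φ_add, act_mul]

theorem not_mem_supp {e : E} : e ∉ Y.supp x ↔ act (Y.φ (Y.δ (Pi.single e 1))) x = x := by
  simp [supp]

theorem supp_act (b : C) : Y.supp (act (Y.φ b) x) = Y.supp x := by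
  ext e
  rw [← not_iff_not, not_mem_supp, not_mem_supp, ← act_add, add_comm, act_add,
    (act_injective _).eq_iff]

theorem fix_of_zero (hx : Y.supp x ⊆ S) {z : E → ZMod 2} (hz : ∀ e ∈ S, z e = 0) :
    act (Y.φ (Y.δ z)) x = x := by
  have key : ∀ T : Finset E, act (Y.φ (Y.δ (∑ e ∈ T, Pi.single e (z e)))) x = x := by
    intro T
    induction T using Finset.induction_on with
    | empty => rw [sum_empty, map_zero, φ_zero, act_one]
    | insert e T he ih =>
      rw [sum_insert he, map_add, act_add, ih]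
      have h2 : ∀ c : ZMod 2, c = 0 ∨ c = 1 := by decide
      rcases h2 (z e) with h | h
      · rw [h, Pi.single_zero, map_zero, φ_zero, act_one]
      · rw [h]
        refine not_mem_supp.1 fun h1 => ?_
        rw [hz e (hx h1)] at h
        exact zero_ne_one h
  have := key univ
  rwa [univ_sum_single] at this

theorem fix_of_K (hx : Y.supp x ⊆ S) (hl : S.card < l) {z : E → ZMod 2} (hz : Y.δ z ∈ Y.K S) :
    act (Y.φ (Y.δ z)) x = x := by
  obtain ⟨ν, h1, h2⟩ := Y.K_free hl hz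
  have : Y.δ z = Y.δ (z - ν) := by rw [map_sub, h1, sub_zero]
  rw [this]
  exact fix_of_zero hx fun e he => by rw [Pi.sub_apply, h2 e he, sub_self]

theorem tr_atom (h : x < n) : Y.tr a x = Y.φ a ⟨x, h⟩ := by rw [tr, dif_pos h]

theorem tr_lt : Y.tr a x < n ↔ x < n := by
  by_cases h : x < n
  · simp [tr_atom h, h]
  · rw [tr, dif_neg h]
    simp [h, le_enc]

theorem cor_tr : Cor (Y.φ a) x (Y.tr a x) := by
  by_cases h : x < n
  · exact Or.inl ⟨h, tr_atom h⟩
  · exact Or.inr ⟨not_lt.1 h, not_lt.1 fun h1 => h (tr_lt.1 h1)⟩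

theorem mem_tr0 {w : ℕ} : w ∈ el n (Y.tr a x) ↔ ∃ y ∈ el n x, ∃ a',
    Y.A (Y.supp x ∪ Y.supp y) a' ∧ a' - a ∈ Y.K (Y.supp x) ∧ w = Y.tr a' y := by
  classical
  by_cases h : x < n
  · simp [el_atom h, el_atom (tr_lt.2 h)]
  · rw [tr, dif_neg h, el_enc, mem_image]
    constructor
    · rintro ⟨p, hp, rfl⟩
      exact ⟨p.1.1, p.1.2, p.2, (mem_filter.1 hp).2.1, (mem_filter.1 hp).2.2, rfl⟩
    · rintro ⟨y, hy, a', h1, h2, rfl⟩
      exact ⟨(⟨y, hy⟩, a'), mem_filter.2 ⟨by simp, h1, h2⟩, rfl⟩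

theorem tr_ext {x' : ℕ} (h : n ≤ x) (h' : n ≤ x')
    (H : ∀ w, w ∈ el n (Y.tr a x) ↔ w ∈ el n (Y.tr a' x')) : Y.tr a x = Y.tr a' x' :=
  ext_el (not_lt.1 fun h1 => not_lt.2 h (tr_lt.1 h1)) (not_lt.1 fun h1 => not_lt.2 h' (tr_lt.1 h1))
    (Finset.ext H)

theorem tr_shift (z : E → ZMod 2) : Y.tr (a + Y.δ z) x = Y.tr a (act (Y.φ (Y.δ z)) x) := by
  induction x using Nat.strong_induction_on generalizing a with
  | _ x ih =>
    by_cases h : x < n
    · rw [tr_atom h, act_atom h, tr_atom (Y.φ (Y.δ z) ⟨x, h⟩).2, Y.φ_add]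
      rfl
    refine tr_ext (not_lt.1 h) (not_lt.1 fun h1 => h (act_lt.1 h1)) fun w => ?_
    rw [mem_tr0, mem_tr0, supp_act, el_act]
    constructor
    · rintro ⟨y, hy, b, h1, h2, rfl⟩
      refine ⟨_, mem_image_of_mem _ hy, b + Y.δ (-z), ?_, ?_, ?_⟩
      · rw [supp_act]
        exact Y.A_shift _ h1
      · convert h2 using 1
        rw [map_neg]
        abel
      · rw [← ih y (lt_of_mem_el hy), map_neg, neg_add_cancel_right]
    · rintro ⟨_, hy', b, h1, h2, rfl⟩
      obtain ⟨y, hy, rfl⟩ := mem_image.1 hy'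
      rw [supp_act] at h1
      refine ⟨y, hy, b + Y.δ z, Y.A_shift _ h1, ?_, (ih y (lt_of_mem_el hy)).symm⟩
      convert h2 using 1
      abel

theorem tr_congr (hx : Y.supp x ⊆ S) (h : a' - a ∈ Y.K S) : Y.tr a' x = Y.tr a x := by
  by_cases h0 : x < n
  · rw [tr_atom h0, tr_atom h0, show a' = a + (a' - a) by abel, Y.φ_add, Equiv.Perm.mul_apply,
      Y.K_atom ⟨x, h0⟩ (fun e he => ?_) h]
    have := not_mem_supp.1 fun h1 => he (hx h1)
    rw [act_atom h0] at this
    exact Fin.ext this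
  have h1 := Y.K_mono hx h
  refine tr_ext (not_lt.1 h0) (not_lt.1 h0) fun w => ?_
  rw [mem_tr0, mem_tr0]
  refine exists_congr fun y => and_congr_right fun _ => exists_congr fun b =>
    and_congr_right fun _ => and_congr_left fun _ => ⟨fun h2 => ?_, fun h2 => ?_⟩
  · have := add_mem h2 h1
    rwa [sub_add_sub_cancel] at this
  · have := sub_mem h2 h1
    rwa [sub_sub_sub_cancel_right] at this

theorem exists_ext {S' : Finset E} (h : S ⊆ S') (h' : S'.card < l) (ha : Y.A S a) :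
    ∃ a', Y.A S' a' ∧ a' - a ∈ Y.K S := by
  obtain ⟨b, hb⟩ := Y.A_ne h'
  obtain ⟨z, hz⟩ := Y.A_tr ((card_le_card h).trans_lt h') (Y.A_mono h hb) ha
  refine ⟨b + Y.δ z, Y.A_shift z hb, ?_⟩
  have := neg_mem hz
  rwa [neg_sub] at this

/-- an element of the transport, seen from any other extension -/
theorem tr_change (hy : y ∈ el n x) (hl : (Y.supp x ∪ Y.supp y).card < l) {b b' : C}
    (h1 : Y.A (Y.supp x ∪ Y.supp y) b) (h2 : Y.A (Y.supp x ∪ Y.supp y) b')
    (h3 : b - b' ∈ Y.K (Y.supp x)) :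
    ∃ y' ∈ el n x, Y.supp y' = Y.supp y ∧ (Y.Hs s y → Y.Hs s x → Y.Hs s y') ∧
      Y.tr b y = Y.tr b' y' := by
  obtain ⟨z, hz⟩ := Y.A_tr hl h2 h1
  have h4 : Y.δ z ∈ Y.K (Y.supp x) := by
    have := sub_mem h3 (Y.K_mono subset_union_left hz)
    convert this using 1
    abel
  have h5 := fix_of_K Subset.rfl ((card_le_card subset_union_left).trans_lt hl) h4
  have h6 : act (Y.φ (Y.δ z)) y ∈ el n x := by
    rw [← h5]
    exact act_mem_el.2 hy
  exact ⟨_, h6, supp_act _, fun _ h => h.mem h6, by rw [tr_congr subset_union_right hz, tr_shift]⟩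

theorem mem_tr (hx : Y.supp x ⊆ S) (hs : Y.Hs s x) (hl : S.card + s < l) (ha : Y.A S a) {w : ℕ} :
    w ∈ el n (Y.tr a x) ↔
      ∃ y ∈ el n x, ∃ a', Y.A (S ∪ Y.supp y) a' ∧ a' - a ∈ Y.K S ∧ w = Y.tr a' y := by
  rw [mem_tr0]
  constructor
  · rintro ⟨y, hy, b, h1, h2, rfl⟩
    have l1 : (S ∪ Y.supp y).card < l :=
      (card_union_le _ _).trans_lt (by have := (hs.mem hy).card; omega)
    have s1 : Y.supp x ∪ Y.supp y ⊆ S ∪ Y.supp y := union_subset_union hx Subset.rfl
    obtain ⟨b', h3, h4⟩ := exists_ext subset_union_left l1 ha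
    obtain ⟨y', h5, h6, -, h7⟩ := tr_change (s := s) hy ((card_le_card s1).trans_lt l1) h1
      (Y.A_mono s1 h3) (by
        have := sub_mem h2 (Y.K_mono hx h4)
        rwa [sub_sub_sub_cancel_right] at this)
    exact ⟨y', h5, b', by rwa [h6], h4, h7⟩
  · rintro ⟨y, hy, b, h1, h2, rfl⟩
    exact ⟨y, hy, b, Y.A_mono (union_subset_union hx Subset.rfl) h1, Y.K_mono hx h2, rfl⟩

theorem tr_sub (hl : 4 * s < l) (hx : Y.Hs s x) (hy : Y.Hs s y) (ha : Y.A (Y.supp x ∪ Y.supp y) a)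
    (h : Y.tr a x = Y.tr a y) {u : ℕ} (hu : u ∈ el n x) :
    ∃ u' ∈ el n y, ∃ b, Y.A (Y.supp u ∪ Y.supp u') b ∧ Y.tr b u = Y.tr b u' := by
  have c1 := hx.card
  have c2 := hy.card
  have c3 := (hx.mem hu).card
  have c4 := card_union_le (Y.supp x) (Y.supp y)
  have c5 := card_union_le (Y.supp x ∪ Y.supp y) (Y.supp u)
  obtain ⟨b, h1, h2⟩ := exists_ext (subset_union_left (s₂ := Y.supp u)) (by omega) ha
  have h3 : Y.tr b u ∈ el n (Y.tr a y) := by
    rw [← h]
    exact (mem_tr subset_union_left hx (by omega) ha).2 ⟨u, hu, b, h1, h2, rfl⟩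
  rw [← tr_congr subset_union_right h2] at h3
  obtain ⟨u', h4, b', h5, h6, h7⟩ := (mem_tr (subset_union_right.trans subset_union_left) hy
    (by omega) h1).1 h3
  refine ⟨u', h4, b', Y.A_mono (union_subset_union subset_union_right Subset.rfl) h5, ?_⟩
  rw [← h7, tr_congr subset_union_right h6]

theorem tr_inj (hl : 4 * s < l) (hx : Y.Hs s x) (hy : Y.Hs s y) (ha : Y.A (Y.supp x ∪ Y.supp y) a)
    (h : Y.tr a x = Y.tr a y) : x = y := by
  induction x using Nat.strong_induction_on generalizing y a with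
  | _ x ih =>
    have h1 : x < n ↔ y < n := by rw [← tr_lt (Y := Y) (a := a), h, tr_lt]
    by_cases h0 : x < n
    · rw [tr_atom h0, tr_atom (h1.1 h0)] at h
      exact congrArg Fin.val ((Y.φ a).injective (Fin.ext h))
    refine ext_el (not_lt.1 h0) (not_lt.1 fun h2 => h0 (h1.2 h2)) (Subset.antisymm ?_ ?_)
    · intro u hu
      obtain ⟨u', h2, b, h3, h4⟩ := tr_sub hl hx hy ha h hu
      rwa [ih u (lt_of_mem_el hu) (hx.mem hu) (hy.mem h2) h3 h4]
    · intro u hu
      obtain ⟨u', h2, b, h3, h4⟩ := tr_sub hl hy hx (by rwa [union_comm]) h.symm hu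
      rwa [← ih u' (lt_of_mem_el h2) (hx.mem h2) (hy.mem hu) (by rwa [union_comm]) h4.symm]

theorem tr_mem_iff (hl : 4 * s < l) (hx : Y.Hs s x) (hy : Y.Hs s y)
    (ha : Y.A (Y.supp x ∪ Y.supp y) a) : Y.tr a y ∈ el n (Y.tr a x) ↔ y ∈ el n x := by
  have c1 := hx.card
  have c2 := hy.card
  have c4 := card_union_le (Y.supp x) (Y.supp y)
  constructor
  · intro h
    obtain ⟨u, h1, b, h2, h3, h4⟩ := (mem_tr subset_union_left hx (by omega) ha).1 h
    rw [← tr_congr subset_union_right h3] at h4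
    rwa [tr_inj hl hy (hx.mem h1) (Y.A_mono (union_subset_union subset_union_right Subset.rfl) h2)
      h4]
  · exact fun h => mem_tr0.2 ⟨y, h, a, ha, by simp, rfl⟩

theorem card_tr (hl : 4 * s < l) (hx : Y.Hs s x) (ha : Y.A (Y.supp x) a) :
    (el n (Y.tr a x)).card = (el n x).card := by
  have c1 := hx.card
  have ex : ∀ T : Finset E, ∃ b, T.card ≤ s → Y.A (Y.supp x ∪ T) b ∧ b - a ∈ Y.K (Y.supp x) := by
    intro T
    by_cases hT : T.card ≤ s
    · have := card_union_le (Y.supp x) T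
      obtain ⟨b, hb⟩ := exists_ext (subset_union_left (s₂ := T)) (by omega) ha
      exact ⟨b, fun _ => hb⟩
    · exact ⟨a, fun h => absurd h hT⟩
  choose b hb using ex
  symm
  refine card_bij (fun y _ => Y.tr (b (Y.supp y)) y) (fun y hy => ?_) (fun y hy u hu h => ?_)
    fun w hw => ?_
  · exact mem_tr0.2 ⟨y, hy, _, (hb _ (hx.mem hy).card).1, (hb _ (hx.mem hy).card).2, rfl⟩
  · have c2 := (hx.mem hy).card
    have c3 := (hx.mem hu).card
    have c4 := card_union_le (Y.supp x) (Y.supp y)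
    have c5 := card_union_le (Y.supp x ∪ Y.supp y) (Y.supp u)
    have c6 := card_union_le (Y.supp x) (Y.supp u)
    obtain ⟨b', h1, h2⟩ := exists_ext (subset_union_left (s₂ := Y.supp u)) (by omega) (hb _ c2).1
    obtain ⟨u', h3, h4, -, h5⟩ := tr_change (s := s) hu (by omega) (hb _ c3).1
      (Y.A_mono (union_subset_union subset_union_left Subset.rfl) h1) (by
        have := sub_mem (sub_mem (hb _ c3).2 (hb _ c2).2) (Y.K_mono subset_union_left h2)
        convert this using 1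
        abel)
    have h6 : y = u' := tr_inj hl (hx.mem hy) (hx.mem h3)
      (Y.A_mono (by rw [h4]; exact union_subset_union subset_union_right Subset.rfl) h1)
      (by rw [tr_congr subset_union_right h2, ← h5]; exact h)
    have h7 : Y.supp y = Y.supp u := by rw [h6, h4]
    refine tr_inj hl (hx.mem hy) (hx.mem hu) (a := b (Y.supp y))
      (Y.A_mono (by rw [← h7, union_self]; exact subset_union_right) (hb _ c2).1) ?_
    rw [h, h7]
  · obtain ⟨y, hy, b', h1, h2, rfl⟩ := mem_tr0.1 hw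
    have c2 := (hx.mem hy).card
    have c4 := card_union_le (Y.supp x) (Y.supp y)
    obtain ⟨y', h3, h4, -, h5⟩ := tr_change (s := s) hy (by omega) h1 (hb _ c2).1 (by
      have := sub_mem h2 (hb _ c2).2
      rwa [sub_sub_sub_cancel_right] at this)
    exact ⟨y', h3, by rw [h4, h5]⟩

theorem tr_ord (ha : Y.A ∅ a) (k : ℕ) : Y.tr a (ord n k) = ord n k := by
  induction k using Nat.strong_induction_on generalizing a with
  | _ k ih =>
    refine ext_el (not_lt.1 fun h => not_lt.2 (le_ord k) (tr_lt.1 h)) (le_ord k) ?_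
    ext w
    rw [mem_tr0, el_ord]
    constructor
    · rintro ⟨_, hy, b, h1, -, rfl⟩
      obtain ⟨j, hj, rfl⟩ := mem_image.1 hy
      rw [ih j (mem_range.1 hj) (Y.A_mono (empty_subset _) h1)]
      exact hy
    · intro hw
      obtain ⟨j, hj, rfl⟩ := mem_image.1 hw
      exact ⟨_, hw, a, by rwa [supp_ord, supp_ord, union_self], by simp,
        (ih j (mem_range.1 hj) ha).symm⟩

end Pool.Agent.Lib.MP_7836d5_lc.CPT.Sys
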